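import Mathlib

/-!
Helper file for the frozen statement S09613 (long extremal square-free permutations).
`V` is a doubly infinite square-free sequence of rationals, `W K` is `V` on `[-K, K]`
with seven changed entries at each end.
-/

set_option autoImplicit false

namespace Q159.ExtremalPerm

/-- An increasing bounded sequence. -/
def h (k : ℤ) : ℚ := (k : ℚ) / (1 + |(k : ℚ)|)

theorem h_lt (k : ℤ) : h k < 1 := by
  unfold h
  rw [div_lt_one (by positivity)]
  have := le_abs_self (k : ℚ)
  linarith

theorem lt_h (k : ℤ) : -1 < h k := by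
  unfold h
  rw [lt_div_iff₀ (by positivity)]
  have := neg_abs_le (k : ℚ)
  linarith

theorem h_neg (k : ℤ) : h (-k) = - h k := by
  unfold h
  push_cast
  rw [abs_neg, neg_div]

theorem h_inj {k k' : ℤ} (e : h k = h k') : k = k' := by
  unfold h at e
  rw [div_eq_div_iff (by positivity) (by positivity)] at e
  rcases le_total 0 k with hk | hk <;> rcases le_total 0 k' with hk' | hk'
  · have a1 : |(k : ℚ)| = k := abs_of_nonneg (by exact_mod_cast hk)
    have a2 : |(k' : ℚ)| = k' := abs_of_nonneg (by exact_mod_cast hk')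
    rw [a1, a2] at e
    have : (k : ℚ) = k' := by linarith
    exact_mod_cast this
  · have a1 : |(k : ℚ)| = k := abs_of_nonneg (by exact_mod_cast hk)
    have a2 : |(k' : ℚ)| = -k' := abs_of_nonpos (by exact_mod_cast hk')
    rw [a1, a2] at e
    have b1 : (0 : ℚ) ≤ k := by exact_mod_cast hk
    have b2 : (k' : ℚ) ≤ 0 := by exact_mod_cast hk'
    have b3 : (0 : ℚ) ≤ k * (1 + -k') := by nlinarith
    have b4 : (k' : ℚ) * (1 + k) ≤ 0 := by nlinarith
    have c1 : (k : ℚ) * (1 + -k') = 0 := by linarith
    have c2 : (k' : ℚ) * (1 + k) = 0 := by linarith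
    have d1 : (k : ℚ) = 0 := by
      rcases mul_eq_zero.1 c1 with h | h
      · exact h
      · exfalso; linarith
    have d2 : (k' : ℚ) = 0 := by
      rcases mul_eq_zero.1 c2 with h | h
      · exact h
      · exfalso; linarith
    have : (k : ℚ) = k' := by linarith
    exact_mod_cast this
  · have a1 : |(k : ℚ)| = -k := abs_of_nonpos (by exact_mod_cast hk)
    have a2 : |(k' : ℚ)| = k' := abs_of_nonneg (by exact_mod_cast hk')
    rw [a1, a2] at e
    have b1 : (k : ℚ) ≤ 0 := by exact_mod_cast hk
    have b2 : 0 ≤ (k' : ℚ) := by exact_mod_cast hk'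
    have b3 : (k : ℚ) * (1 + k') ≤ 0 := by nlinarith
    have b4 : 0 ≤ (k' : ℚ) * (1 + -k) := by nlinarith
    have c1 : (k : ℚ) * (1 + k') = 0 := by linarith
    have c2 : (k' : ℚ) * (1 + -k) = 0 := by linarith
    have d1 : (k : ℚ) = 0 := by
      rcases mul_eq_zero.1 c1 with h | h
      · exact h
      · exfalso; linarith
    have d2 : (k' : ℚ) = 0 := by
      rcases mul_eq_zero.1 c2 with h | h
      · exact h
      · exfalso; linarith
    have : (k : ℚ) = k' := by linarith
    exact_mod_cast this
  · have a1 : |(k : ℚ)| = -k := abs_of_nonpos (by exact_mod_cast hk)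
    have a2 : |(k' : ℚ)| = -k' := abs_of_nonpos (by exact_mod_cast hk')
    rw [a1, a2] at e
    have : (k : ℚ) = k' := by linarith
    exact_mod_cast this

/-- The doubly infinite square-free sequence. -/
def V (u : ℤ) : ℚ :=
  if u = 0 then 0
  else if u % 2 = 0 then V (u / 2) / 2
  else if u % 4 = 1 then -4 + h (u / 4) else 4 + h (u / 4 + 1)
termination_by u.natAbs
decreasing_by omega

theorem V_zero : V 0 = 0 := by rw [V]; simp

theorem V_even (s : ℤ) : V (2 * s) = V s / 2 := by
  by_cases hs : s = 0
  · subst hs; simp [V_zero]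
  · rw [V]
    rw [if_neg (by omega), if_pos (by omega)]
    congr 2
    omega

theorem V_one (k : ℤ) : V (4 * k + 1) = -4 + h k := by
  rw [V]
  rw [if_neg (by omega), if_neg (by omega), if_pos (by omega)]
  congr 2
  omega

theorem V_three (k : ℤ) : V (4 * k + 3) = 4 + h (k + 1) := by
  rw [V]
  rw [if_neg (by omega), if_neg (by omega), if_neg (by omega)]
  congr 3
  omega

theorem V_low {u : ℤ} (hu : u % 4 = 1) : -5 < V u ∧ V u < -3 := by
  obtain ⟨k, rfl⟩ : ∃ k, u = 4 * k + 1 := ⟨u / 4, by omega⟩
  rw [V_one]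
  constructor <;> linarith [h_lt k, lt_h k]

theorem V_high {u : ℤ} (hu : u % 4 = 3) : 3 < V u ∧ V u < 5 := by
  obtain ⟨k, rfl⟩ : ∃ k, u = 4 * k + 3 := ⟨u / 4, by omega⟩
  rw [V_three]
  constructor <;> linarith [h_lt (k + 1), lt_h (k + 1)]

theorem V_bd (u : ℤ) : -5 < V u ∧ V u < 5 := by
  by_cases h0 : u = 0
  · subst h0; rw [V_zero]; norm_num
  · by_cases h2 : u % 2 = 0
    · obtain ⟨s, rfl⟩ : ∃ s, u = 2 * s := ⟨u / 2, by omega⟩
      rw [V_even]
      have := V_bd s
      constructor <;> linarith [this.1, this.2]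
    · by_cases h1 : u % 4 = 1
      · have := V_low h1
        constructor <;> linarith [this.1, this.2]
      · have := V_high (u := u) (by omega)
        constructor <;> linarith [this.1, this.2]
termination_by u.natAbs
decreasing_by omega

theorem V_mid {u : ℤ} (hu : u % 2 = 0) : -(5/2) < V u ∧ V u < 5/2 := by
  obtain ⟨s, rfl⟩ : ∃ s, u = 2 * s := ⟨u / 2, by omega⟩
  rw [V_even]
  have := V_bd s
  constructor <;> linarith [this.1, this.2]

theorem V_mid4 {u : ℤ} (hu : u % 4 = 0) : -(5/4) < V u ∧ V u < 5/4 := by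
  obtain ⟨s, rfl⟩ : ∃ s, u = 2 * s := ⟨u / 2, by omega⟩
  rw [V_even]
  have := V_mid (u := s) (by omega)
  constructor <;> linarith [this.1, this.2]

theorem V_mid6 {u : ℤ} (hu : u % 8 = 6) : 3/2 < V u := by
  obtain ⟨s, rfl⟩ : ∃ s, u = 2 * s := ⟨u / 2, by omega⟩
  rw [V_even]
  have := V_high (u := s) (by omega)
  linarith [this.1, this.2]

theorem V_mid2 {u : ℤ} (hu : u % 8 = 2) : V u < -(3/2) := by
  obtain ⟨s, rfl⟩ : ∃ s, u = 2 * s := ⟨u / 2, by omega⟩
  rw [V_even]
  have := V_low (u := s) (by omega)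
  linarith [this.1, this.2]

theorem V_neg (u : ℤ) : V (-u) = - V u := by
  by_cases h0 : u = 0
  · subst h0; simp [V_zero]
  · by_cases h2 : u % 2 = 0
    · obtain ⟨s, rfl⟩ : ∃ s, u = 2 * s := ⟨u / 2, by omega⟩
      have e : -(2 * s) = 2 * (-s) := by ring
      rw [e, V_even, V_even, V_neg s]
      ring
    · by_cases h1 : u % 4 = 1
      · obtain ⟨k, rfl⟩ : ∃ k, u = 4 * k + 1 := ⟨u / 4, by omega⟩
        have e : -(4 * k + 1) = 4 * (-k - 1) + 3 := by ring
        rw [e, V_three, V_one]
        have e2 : -k - 1 + 1 = -k := by ring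
        rw [e2, h_neg]
        ring
      · obtain ⟨k, rfl⟩ : ∃ k, u = 4 * k + 3 := ⟨u / 4, by omega⟩
        have e : -(4 * k + 3) = 4 * (-k - 1) + 1 := by ring
        rw [e, V_three, V_one]
        have e2 : -k - 1 = -(k + 1) := by ring
        rw [e2, h_neg]
        ring
termination_by u.natAbs
decreasing_by omega

theorem V_inj (u u' : ℤ) (e : V u = V u') : u = u' := by
  by_cases h0 : u = 0 ∧ u' = 0
  · rw [h0.1, h0.2]
  · by_cases h2 : u % 2 = 0 <;> by_cases h2' : u' % 2 = 0
    · obtain ⟨s, rfl⟩ : ∃ s, u = 2 * s := ⟨u / 2, by omega⟩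
      obtain ⟨s', rfl⟩ : ∃ s, u' = 2 * s := ⟨u' / 2, by omega⟩
      rw [V_even, V_even] at e
      have := V_inj s s' (by linarith)
      rw [this]
    · exfalso
      have b := V_mid h2
      by_cases h1 : u' % 4 = 1
      · have := V_low h1
        linarith [this.1, this.2, b.1, b.2]
      · have := V_high (u := u') (by omega)
        linarith [this.1, this.2, b.1, b.2]
    · exfalso
      have b := V_mid h2'
      by_cases h1 : u % 4 = 1
      · have := V_low h1
        linarith [this.1, this.2, b.1, b.2]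
      · have := V_high (u := u) (by omega)
        linarith [this.1, this.2, b.1, b.2]
    · by_cases h1 : u % 4 = 1 <;> by_cases h1' : u' % 4 = 1
      · obtain ⟨k, rfl⟩ : ∃ k, u = 4 * k + 1 := ⟨u / 4, by omega⟩
        obtain ⟨k', rfl⟩ : ∃ k, u' = 4 * k + 1 := ⟨u' / 4, by omega⟩
        rw [V_one, V_one] at e
        rw [h_inj (k := k) (k' := k') (by linarith)]
      · exfalso
        have b := V_low h1
        have c := V_high (u := u') (by omega)
        linarith [c.1, c.2, b.1, b.2]
      · exfalso
        have b := V_low h1'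
        have c := V_high (u := u) (by omega)
        linarith [c.1, c.2, b.1, b.2]
      · obtain ⟨k, rfl⟩ : ∃ k, u = 4 * k + 3 := ⟨u / 4, by omega⟩
        obtain ⟨k', rfl⟩ : ∃ k, u' = 4 * k + 3 := ⟨u' / 4, by omega⟩
        rw [V_three, V_three] at e
        have := h_inj (k := k + 1) (k' := k' + 1) (by linarith)
        have : k = k' := by omega
        rw [this]
termination_by u.natAbs + u'.natAbs
decreasing_by omega

theorem V_sign (u : ℤ) : V u < V (u + 1) ↔ (u % 4 = 1 ∨ u % 4 = 2) := by
  have h4 : u % 4 = 0 ∨ u % 4 = 1 ∨ u % 4 = 2 ∨ u % 4 = 3 := by omega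
  rcases h4 with c | c | c | c
  · have a := V_mid (u := u) (by omega)
    have b := V_low (u := u + 1) (by omega)
    constructor
    · intro; linarith [a.1, a.2, b.1, b.2]
    · intro; omega
  · have a := V_mid (u := u + 1) (by omega)
    have b := V_low (u := u) (by omega)
    constructor
    · intro; omega
    · intro; linarith [a.1, a.2, b.1, b.2]
  · have a := V_mid (u := u) (by omega)
    have b := V_high (u := u + 1) (by omega)
    constructor
    · intro; omega
    · intro; linarith [a.1, a.2, b.1, b.2]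
  · have a := V_mid (u := u + 1) (by omega)
    have b := V_high (u := u) (by omega)
    constructor
    · intro; linarith [a.1, a.2, b.1, b.2]
    · intro; omega

/-- The block of length `2 * l` starting at `s` is a square. -/
def Sq (f : ℤ → ℚ) (s l : ℤ) : Prop :=
  ∀ a b : ℤ, 0 ≤ a → a < l → 0 ≤ b → b < l →
    (f (s + a) < f (s + b) ↔ f (s + l + a) < f (s + l + b))

/-- If the signs of `f` on the block are the standard ones then a square has length `0` mod `4`. -/
theorem Sq.mod4 {f : ℤ → ℚ} {s l : ℤ} (hsq : Sq f s l) (hl : 2 ≤ l)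
    (sg : ∀ u, s ≤ u → u + 1 ≤ s + 2 * l - 1 → (f u < f (u + 1) ↔ (u % 4 = 1 ∨ u % 4 = 2))) :
    l % 4 = 0 := by
  have h0 := hsq 0 1 (by omega) (by omega) (by omega) (by omega)
  rw [add_zero, add_zero, sg s (by omega) (by omega), sg (s + l) (by omega) (by omega)] at h0
  by_cases h2 : l = 2
  · omega
  · have h1 := hsq 1 2 (by omega) (by omega) (by omega) (by omega)
    rw [show s + 2 = (s + 1) + 1 by ring, show s + l + 2 = (s + l + 1) + 1 by ring,
      sg (s + 1) (by omega) (by omega), sg (s + l + 1) (by omega) (by omega)] at h1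
    by_cases h3 : l = 3
    · omega
    · have h2 := hsq 2 3 (by omega) (by omega) (by omega) (by omega)
      rw [show s + 3 = (s + 2) + 1 by ring, show s + l + 3 = (s + l + 2) + 1 by ring,
        sg (s + 2) (by omega) (by omega), sg (s + l + 2) (by omega) (by omega)] at h2
      omega

theorem V_noSq (l : ℤ) (hl : 2 ≤ l) (s : ℤ) : ¬ Sq V s l := by
  intro hsq
  have hm := hsq.mod4 hl (fun u _ _ => V_sign u)
  obtain ⟨l', rfl⟩ : ∃ l', l = 2 * l' := ⟨l / 2, by omega⟩
  obtain ⟨s', hs'⟩ : ∃ s', 2 * s' = s ∨ 2 * s' = s + 1 := ⟨(s + 1) / 2, by omega⟩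
  apply V_noSq l' (by omega) s'
  intro a b ha ha' hb hb'
  rcases hs' with e | e
  · have := hsq (2 * a) (2 * b) (by omega) (by omega) (by omega) (by omega)
    rw [show s + 2 * a = 2 * (s' + a) by omega, show s + 2 * b = 2 * (s' + b) by omega,
      show s + 2 * l' + 2 * a = 2 * (s' + l' + a) by omega,
      show s + 2 * l' + 2 * b = 2 * (s' + l' + b) by omega, V_even, V_even, V_even, V_even] at this
    constructor
    · intro h; have := this.1 (by linarith); linarith
    · intro h; have := this.2 (by linarith); linarith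
  · have := hsq (2 * a + 1) (2 * b + 1) (by omega) (by omega) (by omega) (by omega)
    rw [show s + (2 * a + 1) = 2 * (s' + a) by omega, show s + (2 * b + 1) = 2 * (s' + b) by omega,
      show s + 2 * l' + (2 * a + 1) = 2 * (s' + l' + a) by omega,
      show s + 2 * l' + (2 * b + 1) = 2 * (s' + l' + b) by omega,
      V_even, V_even, V_even, V_even] at this
    constructor
    · intro h; have := this.1 (by linarith); linarith
    · intro h; have := this.2 (by linarith); linarith
termination_by l.natAbs
decreasing_by omega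

/-- The word on `[-K, K]`. -/
def W (K u : ℤ) : ℚ :=
  if u = K then 30 else if u = K - 1 then -21 else if u = K - 2 then -20
  else if u = K - 7 then 25 else if u = K - 8 then -11 else if u = K - 9 then -12
  else if u = K - 10 then -10
  else if u = -K then -30 else if u = -K + 1 then 21 else if u = -K + 2 then 20
  else if u = -K + 7 then -25 else if u = -K + 8 then 11 else if u = -K + 9 then 12
  else if u = -K + 10 then 10
  else V u

theorem W0 (K : ℤ) : W K K = 30 := by unfold W; simp
theorem W1 (K : ℤ) : W K (K - 1) = -21 := by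
  unfold W; rw [if_neg (by omega), if_pos (by omega)]
theorem W2 (K : ℤ) : W K (K - 2) = -20 := by
  unfold W; rw [if_neg (by omega), if_neg (by omega), if_pos (by omega)]
theorem W7 (K : ℤ) : W K (K - 7) = 25 := by
  unfold W; rw [if_neg (by omega), if_neg (by omega), if_neg (by omega), if_pos (by omega)]
theorem W8 (K : ℤ) : W K (K - 8) = -11 := by
  unfold W
  rw [if_neg (by omega), if_neg (by omega), if_neg (by omega), if_neg (by omega),
    if_pos (by omega)]
theorem W9 (K : ℤ) : W K (K - 9) = -12 := by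
  unfold W
  rw [if_neg (by omega), if_neg (by omega), if_neg (by omega), if_neg (by omega),
    if_neg (by omega), if_pos (by omega)]
theorem W10 (K : ℤ) : W K (K - 10) = -10 := by
  unfold W
  rw [if_neg (by omega), if_neg (by omega), if_neg (by omega), if_neg (by omega),
    if_neg (by omega), if_neg (by omega), if_pos (by omega)]

theorem W_normal {K u : ℤ} (h : (-K + 11 ≤ u ∧ u ≤ K - 11) ∨ (K - 6 ≤ u ∧ u ≤ K - 3))
    (hK : 26 ≤ K) : W K u = V u := by
  unfold W
  rw [if_neg (by omega), if_neg (by omega), if_neg (by omega), if_neg (by omega),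
    if_neg (by omega), if_neg (by omega), if_neg (by omega), if_neg (by omega),
    if_neg (by omega), if_neg (by omega), if_neg (by omega), if_neg (by omega),
    if_neg (by omega), if_neg (by omega)]

theorem L0 {K : ℤ} (hK : 26 ≤ K) : W K (-K) = -30 := by
  unfold W
  rw [if_neg (by omega), if_neg (by omega), if_neg (by omega), if_neg (by omega), if_neg (by omega), if_neg (by omega), if_neg (by omega), if_pos (by omega)]
theorem L1 {K : ℤ} (hK : 26 ≤ K) : W K (-K + 1) = 21 := by
  unfold W
  rw [if_neg (by omega), if_neg (by omega), if_neg (by omega), if_neg (by omega), if_neg (by omega), if_neg (by omega), if_neg (by omega), if_neg (by omega), if_pos (by omega)]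
theorem L2 {K : ℤ} (hK : 26 ≤ K) : W K (-K + 2) = 20 := by
  unfold W
  rw [if_neg (by omega), if_neg (by omega), if_neg (by omega), if_neg (by omega), if_neg (by omega), if_neg (by omega), if_neg (by omega), if_neg (by omega), if_neg (by omega), if_pos (by omega)]
theorem L7 {K : ℤ} (hK : 26 ≤ K) : W K (-K + 7) = -25 := by
  unfold W
  rw [if_neg (by omega), if_neg (by omega), if_neg (by omega), if_neg (by omega), if_neg (by omega), if_neg (by omega), if_neg (by omega), if_neg (by omega), if_neg (by omega), if_neg (by omega), if_pos (by omega)]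
theorem L8 {K : ℤ} (hK : 26 ≤ K) : W K (-K + 8) = 11 := by
  unfold W
  rw [if_neg (by omega), if_neg (by omega), if_neg (by omega), if_neg (by omega), if_neg (by omega), if_neg (by omega), if_neg (by omega), if_neg (by omega), if_neg (by omega), if_neg (by omega), if_neg (by omega), if_pos (by omega)]
theorem L9 {K : ℤ} (hK : 26 ≤ K) : W K (-K + 9) = 12 := by
  unfold W
  rw [if_neg (by omega), if_neg (by omega), if_neg (by omega), if_neg (by omega), if_neg (by omega), if_neg (by omega), if_neg (by omega), if_neg (by omega), if_neg (by omega), if_neg (by omega), if_neg (by omega), if_neg (by omega), if_pos (by omega)]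
theorem L10 {K : ℤ} (hK : 26 ≤ K) : W K (-K + 10) = 10 := by
  unfold W
  rw [if_neg (by omega), if_neg (by omega), if_neg (by omega), if_neg (by omega), if_neg (by omega), if_neg (by omega), if_neg (by omega), if_neg (by omega), if_neg (by omega), if_neg (by omega), if_neg (by omega), if_neg (by omega), if_neg (by omega), if_pos (by omega)]

theorem W_neg {K : ℤ} (hK : 26 ≤ K) (u : ℤ) : W K (-u) = - W K u := by
  by_cases c0 : u = K
  · rw [show -u = -K by omega, c0, W0, L0 hK]
  by_cases c1 : u = K - 1
  · rw [show -u = -K + 1 by omega, c1, W1, L1 hK]; norm_num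
  by_cases c2 : u = K - 2
  · rw [show -u = -K + 2 by omega, c2, W2, L2 hK]; norm_num
  by_cases c7 : u = K - 7
  · rw [show -u = -K + 7 by omega, c7, W7, L7 hK]
  by_cases c8 : u = K - 8
  · rw [show -u = -K + 8 by omega, c8, W8, L8 hK]; norm_num
  by_cases c9 : u = K - 9
  · rw [show -u = -K + 9 by omega, c9, W9, L9 hK]; norm_num
  by_cases c10 : u = K - 10
  · rw [show -u = -K + 10 by omega, c10, W10, L10 hK]; norm_num
  by_cases d0 : u = -K
  · rw [show -u = K by omega, d0, W0, L0 hK]; norm_num
  by_cases d1 : u = -K + 1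
  · rw [show -u = K - 1 by omega, d1, W1, L1 hK]
  by_cases d2 : u = -K + 2
  · rw [show -u = K - 2 by omega, d2, W2, L2 hK]
  by_cases d7 : u = -K + 7
  · rw [show -u = K - 7 by omega, d7, W7, L7 hK]; norm_num
  by_cases d8 : u = -K + 8
  · rw [show -u = K - 8 by omega, d8, W8, L8 hK]
  by_cases d9 : u = -K + 9
  · rw [show -u = K - 9 by omega, d9, W9, L9 hK]
  by_cases d10 : u = -K + 10
  · rw [show -u = K - 10 by omega, d10, W10, L10 hK]
  unfold W
  rw [if_neg (by omega), if_neg (by omega), if_neg (by omega), if_neg (by omega),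
    if_neg (by omega), if_neg (by omega), if_neg (by omega), if_neg (by omega),
    if_neg (by omega), if_neg (by omega), if_neg (by omega), if_neg (by omega),
    if_neg (by omega), if_neg (by omega), if_neg (by omega), if_neg (by omega),
    if_neg (by omega), if_neg (by omega), if_neg (by omega), if_neg (by omega),
    if_neg (by omega), if_neg (by omega), if_neg (by omega), if_neg (by omega),
    if_neg (by omega), if_neg (by omega), if_neg (by omega), if_neg (by omega), V_neg]

theorem W_normal' {K u : ℤ} (h : -K + 3 ≤ u ∧ u ≤ -K + 6) (hK : 26 ≤ K) : W K u = V u := by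
  have := W_neg hK (-u)
  rw [neg_neg, W_normal (u := -u) (Or.inr (by omega)) hK, V_neg, neg_neg] at this
  exact this

theorem W_sign_nonneg {K : ℤ} (hK : 26 ≤ K) (h8 : K % 8 = 2) {u : ℤ} (hu : 0 ≤ u) (hu' : u + 1 ≤ K) :
    W K u < W K (u + 1) ↔ (u % 4 = 1 ∨ u % 4 = 2) := by
  by_cases c : u + 1 ≤ K - 11
  · rw [W_normal (Or.inl (by omega)) hK, W_normal (Or.inl (by omega)) hK]
    exact V_sign u
  · obtain ⟨j, hj⟩ : ∃ j, u = K - j := ⟨K - u, by omega⟩
    have j1 : 1 ≤ j := by omega
    have j2 : j ≤ 11 := by omega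
    interval_cases j
    all_goals subst hj
    · rw [show K - 1 + 1 = K by ring, W0, W1]
      refine iff_of_true (by norm_num) (by omega)
    · rw [show K - 2 + 1 = K - 1 by ring, W1, W2]
      refine iff_of_false (by norm_num) (by omega)
    · rw [show K - 3 + 1 = K - 2 by ring, W2, W_normal (Or.inr (by omega)) hK]
      have := V_bd (K - 3)
      refine iff_of_false (by linarith [this.1]) (by omega)
    · rw [W_normal (Or.inr (by omega)) hK, W_normal (Or.inr (by omega)) hK]
      exact V_sign _
    · rw [W_normal (Or.inr (by omega)) hK, W_normal (Or.inr (by omega)) hK]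
      exact V_sign _
    · rw [W_normal (Or.inr (by omega)) hK, W_normal (Or.inr (by omega)) hK]
      exact V_sign _
    · rw [show K - 7 + 1 = K - 6 by ring, W7, W_normal (Or.inr (by omega)) hK]
      have := V_bd (K - 6)
      refine iff_of_false (by linarith [this.2]) (by omega)
    · rw [show K - 8 + 1 = K - 7 by ring, W8, W7]
      refine iff_of_true (by norm_num) (by omega)
    · rw [show K - 9 + 1 = K - 8 by ring, W8, W9]
      refine iff_of_true (by norm_num) (by omega)
    · rw [show K - 10 + 1 = K - 9 by ring, W9, W10]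
      refine iff_of_false (by norm_num) (by omega)
    · rw [show K - 11 + 1 = K - 10 by ring, W10, W_normal (Or.inl (by omega)) hK]
      have := V_bd (K - 11)
      refine iff_of_false (by linarith [this.1]) (by omega)

theorem W_sign {K : ℤ} (hK : 26 ≤ K) (h8 : K % 8 = 2) {u : ℤ} (hu : -K ≤ u) (hu' : u + 1 ≤ K) :
    W K u < W K (u + 1) ↔ (u % 4 = 1 ∨ u % 4 = 2) := by
  by_cases c : 0 ≤ u
  · exact W_sign_nonneg hK h8 c hu'
  · have := W_sign_nonneg hK h8 (u := -u - 1) (by omega) (by omega)
    rw [show -u - 1 + 1 = -u by ring, show -u - 1 = -(u + 1) by ring, W_neg hK, W_neg hK] at this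
    rw [neg_lt_neg_iff] at this
    rw [this]
    omega

/-- low entries outside the right end -/
theorem W_lo {K : ℤ} (hK : 26 ≤ K) (h8 : K % 8 = 2) {u : ℤ} (hu : -K ≤ u) (hu' : u ≤ K - 11)
    (h4 : u % 4 = 1) : W K u < -3 := by
  by_cases c : -K + 11 ≤ u
  · rw [W_normal (Or.inl ⟨c, hu'⟩) hK]
    exact (V_low h4).2
  · by_cases d : u = -K + 7
    · rw [d, L7 hK]; norm_num
    · rw [W_normal' (by omega) hK]
      exact (V_low h4).2

/-- entries at multiples of four outside the right end -/
theorem W_m0 {K : ℤ} (hK : 26 ≤ K) (h8 : K % 8 = 2) {u : ℤ} (hu : -K ≤ u) (hu' : u ≤ K - 11)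
    (h4 : u % 4 = 0) : -(5/2) < W K u := by
  by_cases c : -K + 11 ≤ u
  · rw [W_normal (Or.inl ⟨c, hu'⟩) hK]
    exact (V_mid (by omega)).1
  · by_cases d : u = -K + 10
    · rw [d, L10 hK]; norm_num
    · by_cases d2 : u = -K + 2
      · rw [d2, L2 hK]; norm_num
      · rw [W_normal' (by omega) hK]
        exact (V_mid (by omega)).1

/-- Two positions of the second half compared with the corresponding ones of the first half. -/
theorem Sq.pair {f : ℤ → ℚ} {s l : ℤ} (hsq : Sq f s l) (p q : ℤ) (hp : s + l ≤ p)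
    (hp' : p < s + 2 * l) (hq : s + l ≤ q) (hq' : q < s + 2 * l) :
    f (p - l) < f (q - l) ↔ f p < f q := by
  have := hsq (p - s - l) (q - s - l) (by omega) (by omega) (by omega) (by omega)
  rw [show s + (p - s - l) = p - l by ring, show s + (q - s - l) = q - l by ring,
    show s + l + (p - s - l) = p by ring, show s + l + (q - s - l) = q by ring] at this
  exact this

theorem W_noSq_right {K : ℤ} (hK : 26 ≤ K) (h8 : K % 8 = 2) {s l : ℤ} (hl : 2 ≤ l) (hs : -K ≤ s)
    (he : s + 2 * l - 1 ≤ K) (he' : K - 10 ≤ s + 2 * l - 1) : ¬ Sq (W K) s l := by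
  intro hsq
  have hm := hsq.mod4 hl (fun u hu hu' => W_sign hK h8 (by omega) (by omega))
  obtain ⟨e, hse⟩ : ∃ e, s = e - 2 * l + 1 := ⟨s + 2 * l - 1, by omega⟩
  subst hse
  have e1 : e ≤ K := by omega
  have e2 : K - 10 ≤ e := by omega
  have vA := V_mid4 (u := K - 14) (by omega)
  have vB := V_low (u := K - 13) (by omega)
  have vC := V_mid6 (u := K - 12) (by omega)
  have vC' := V_bd (K - 12)
  have va := V_mid4 (u := K - 6) (by omega)
  have vb := V_low (u := K - 5) (by omega)
  have vc := V_mid6 (u := K - 4) (by omega)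
  have vd := V_high (u := K - 3) (by omega)
  by_cases l16 : 16 ≤ l
  · have := hsq.pair (K - 13) (K - 10) (by omega) (by omega) (by omega) (by omega)
    rw [W10, W_normal (u := K - 13) (Or.inl (by omega)) hK] at this
    have a1 := W_lo hK h8 (u := K - 13 - l) (by omega) (by omega) (by omega)
    have a2 := W_m0 hK h8 (u := K - 10 - l) (by omega) (by omega) (by omega)
    have := this.1 (by linarith)
    linarith
  · have hl' : l = 4 ∨ l = 8 ∨ l = 12 := by omega
    rcases hl' with rfl | rfl | rfl
    · -- l = 4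
      by_cases c1 : e = K - 10
      · have := hsq.pair (K - 13) (K - 10) (by omega) (by omega) (by omega) (by omega)
        rw [W10, W_normal (u := K - 13) (Or.inl (by omega)) hK] at this
        have a1 := W_lo hK h8 (u := K - 13 - 4) (by omega) (by omega) (by omega)
        have a2 := W_m0 hK h8 (u := K - 10 - 4) (by omega) (by omega) (by omega)
        have := this.1 (by linarith)
        linarith
      by_cases c2 : e = K - 9
      · have := hsq.pair (K - 12) (K - 10) (by omega) (by omega) (by omega) (by omega)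
        rw [W10, W_normal (u := K - 12) (Or.inl (by omega)) hK,
          W_normal (u := K - 12 - 4) (Or.inl (by omega)) hK,
          W_normal (u := K - 10 - 4) (Or.inl (by omega)) hK] at this
        have a1 := V_mid2 (u := K - 12 - 4) (by omega)
        have a2 := V_mid4 (u := K - 10 - 4) (by omega)
        have := this.1 (by linarith)
        linarith
      by_cases c3 : e ≤ K - 7
      · have := hsq.pair (K - 10) (K - 8) (by omega) (by omega) (by omega) (by omega)
        rw [W10, W8, W_normal (u := K - 10 - 4) (Or.inl (by omega)) hK,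
          W_normal (u := K - 8 - 4) (Or.inl (by omega)) hK] at this
        have a1 := V_mid6 (u := K - 8 - 4) (by omega)
        have a2 := V_mid4 (u := K - 10 - 4) (by omega)
        have := this.1 (by linarith)
        linarith
      by_cases c4 : e = K - 6
      · have := hsq.pair (K - 9) (K - 6) (by omega) (by omega) (by omega) (by omega)
        rw [show K - 6 - 4 = K - 10 by ring, show K - 9 - 4 = K - 13 by ring, W9, W10,
          W_normal (u := K - 13) (Or.inl (by omega)) hK,
          W_normal (u := K - 6) (Or.inr (by omega)) hK] at this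
        have := this.2 (by linarith)
        linarith
      by_cases c5 : e = K - 5
      · have := hsq.pair (K - 8) (K - 6) (by omega) (by omega) (by omega) (by omega)
        rw [show K - 6 - 4 = K - 10 by ring, show K - 8 - 4 = K - 12 by ring, W8, W10,
          W_normal (u := K - 12) (Or.inl (by omega)) hK,
          W_normal (u := K - 6) (Or.inr (by omega)) hK] at this
        have := this.2 (by linarith)
        linarith
      by_cases c6 : e ≤ K - 3
      · have := hsq.pair (K - 6) (K - 4) (by omega) (by omega) (by omega) (by omega)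
        rw [show K - 6 - 4 = K - 10 by ring, show K - 4 - 4 = K - 8 by ring, W8, W10,
          W_normal (u := K - 4) (Or.inr (by omega)) hK,
          W_normal (u := K - 6) (Or.inr (by omega)) hK] at this
        have := this.2 (by linarith)
        linarith
      by_cases c7 : e = K - 2
      · have := hsq.pair (K - 5) (K - 2) (by omega) (by omega) (by omega) (by omega)
        rw [show K - 5 - 4 = K - 9 by ring, show K - 2 - 4 = K - 6 by ring, W2, W9,
          W_normal (u := K - 5) (Or.inr (by omega)) hK,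
          W_normal (u := K - 6) (Or.inr (by omega)) hK] at this
        have := this.1 (by linarith)
        linarith
      by_cases c8 : e = K - 1
      · have := hsq.pair (K - 4) (K - 2) (by omega) (by omega) (by omega) (by omega)
        rw [show K - 4 - 4 = K - 8 by ring, show K - 2 - 4 = K - 6 by ring, W2, W8,
          W_normal (u := K - 4) (Or.inr (by omega)) hK,
          W_normal (u := K - 6) (Or.inr (by omega)) hK] at this
        have := this.1 (by linarith)
        linarith
      have := hsq.pair (K - 3) K (by omega) (by omega) (by omega) (by omega)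
      rw [show K - 3 - 4 = K - 7 by ring, W0, W7,
        W_normal (u := K - 4) (Or.inr (by omega)) hK,
        W_normal (u := K - 3) (Or.inr (by omega)) hK] at this
      have a := V_bd (K - 4)
      have := this.2 (by linarith)
      linarith
    · -- l = 8
      by_cases c1 : e ≤ K - 6
      · have := hsq.pair (K - 13) (K - 10) (by omega) (by omega) (by omega) (by omega)
        rw [W10, W_normal (u := K - 13) (Or.inl (by omega)) hK] at this
        have a1 := W_lo hK h8 (u := K - 13 - 8) (by omega) (by omega) (by omega)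
        have a2 := W_m0 hK h8 (u := K - 10 - 8) (by omega) (by omega) (by omega)
        have := this.1 (by linarith)
        linarith
      by_cases c2 : e ≤ K - 1
      · have := hsq.pair (K - 5) (K - 8) (by omega) (by omega) (by omega) (by omega)
        rw [show K - 5 - 8 = K - 13 by ring, W8, W_normal (u := K - 5) (Or.inr (by omega)) hK,
          W_normal (u := K - 13) (Or.inl (by omega)) hK] at this
        have a1 := W_normal (K := K) (u := K - 8 - 8) (Or.inl (by omega)) hK
        rw [a1] at this
        have a2 := V_mid (u := K - 8 - 8) (by omega)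
        have := this.1 (by linarith)
        linarith
      have := hsq.pair (K - 2) K (by omega) (by omega) (by omega) (by omega)
      rw [show K - 2 - 8 = K - 10 by ring, W2, W0, W10, W8] at this
      have := this.2 (by norm_num)
      linarith
    · -- l = 12
      by_cases c1 : e ≤ K - 2
      · have := hsq.pair (K - 13) (K - 10) (by omega) (by omega) (by omega) (by omega)
        rw [W10, W_normal (u := K - 13) (Or.inl (by omega)) hK] at this
        have a1 := W_lo hK h8 (u := K - 13 - 12) (by omega) (by omega) (by omega)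
        have a2 := W_m0 hK h8 (u := K - 10 - 12) (by omega) (by omega) (by omega)
        have := this.1 (by linarith)
        linarith
      have := hsq.pair (K - 5) (K - 2) (by omega) (by omega) (by omega) (by omega)
      rw [W2, W_normal (u := K - 5) (Or.inr (by omega)) hK] at this
      have a1 := W_lo hK h8 (u := K - 5 - 12) (by omega) (by omega) (by omega)
      have a2 := W_m0 hK h8 (u := K - 2 - 12) (by omega) (by omega) (by omega)
      have := this.1 (by linarith)
      linarith

theorem Sq.reflect {f : ℤ → ℚ} (hf : ∀ u, f (-u) = - f u) {s l : ℤ} (hsq : Sq f s l) :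
    Sq f (-(s + 2 * l - 1)) l := by
  intro a b ha ha' hb hb'
  have := hsq (l - 1 - b) (l - 1 - a) (by omega) (by omega) (by omega) (by omega)
  rw [show -(s + 2 * l - 1) + a = -(s + l + (l - 1 - a)) by ring,
    show -(s + 2 * l - 1) + b = -(s + l + (l - 1 - b)) by ring,
    show -(s + 2 * l - 1) + l + a = -(s + (l - 1 - a)) by ring,
    show -(s + 2 * l - 1) + l + b = -(s + (l - 1 - b)) by ring,
    hf, hf, hf, hf, neg_lt_neg_iff, neg_lt_neg_iff]
  exact this.symm

theorem W_noSq {K : ℤ} (hK : 26 ≤ K) (h8 : K % 8 = 2) {s l : ℤ} (hl : 2 ≤ l) (hs : -K ≤ s)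
    (he : s + 2 * l - 1 ≤ K) : ¬ Sq (W K) s l := by
  intro hsq
  by_cases c1 : K - 10 ≤ s + 2 * l - 1
  · exact W_noSq_right hK h8 hl hs he c1 hsq
  by_cases c2 : s ≤ -K + 10
  · exact W_noSq_right hK h8 (s := -(s + 2 * l - 1)) hl (by omega) (by omega) (by omega)
      (hsq.reflect (W_neg hK))
  apply V_noSq l hl s
  intro a b ha ha' hb hb'
  have := hsq a b ha ha' hb hb'
  rwa [W_normal (Or.inl (by omega)) hK, W_normal (Or.inl (by omega)) hK,
    W_normal (Or.inl (by omega)) hK, W_normal (Or.inl (by omega)) hK] at this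

/-- All values of `W`. -/
theorem W_cases {K : ℤ} (hK : 26 ≤ K) (u : ℤ) :
    (u = K ∧ W K u = 30) ∨
    (u = K - 1 ∧ W K u = -21) ∨
    (u = K - 2 ∧ W K u = -20) ∨
    (u = K - 7 ∧ W K u = 25) ∨
    (u = K - 8 ∧ W K u = -11) ∨
    (u = K - 9 ∧ W K u = -12) ∨
    (u = K - 10 ∧ W K u = -10) ∨
    (u = -K ∧ W K u = -30) ∨
    (u = -K + 1 ∧ W K u = 21) ∨
    (u = -K + 2 ∧ W K u = 20) ∨
    (u = -K + 7 ∧ W K u = -25) ∨
    (u = -K + 8 ∧ W K u = 11) ∨
    (u = -K + 9 ∧ W K u = 12) ∨
    (u = -K + 10 ∧ W K u = 10) ∨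
    W K u = V u := by
  by_cases c0 : u = K
  · left; exact ⟨c0, by rw [c0, W0]⟩
  by_cases c1 : u = K - 1
  · right; left; exact ⟨c1, by rw [c1, W1]⟩
  by_cases c2 : u = K - 2
  · right; right; left; exact ⟨c2, by rw [c2, W2]⟩
  by_cases c7 : u = K - 7
  · right; right; right; left; exact ⟨c7, by rw [c7, W7]⟩
  by_cases c8 : u = K - 8
  · right; right; right; right; left; exact ⟨c8, by rw [c8, W8]⟩
  by_cases c9 : u = K - 9
  · right; right; right; right; right; left; exact ⟨c9, by rw [c9, W9]⟩
  by_cases c10 : u = K - 10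
  · right; right; right; right; right; right; left; exact ⟨c10, by rw [c10, W10]⟩
  by_cases d0 : u = -K
  · right; right; right; right; right; right; right; left; exact ⟨d0, by rw [d0, L0 hK]⟩
  by_cases d1 : u = -K + 1
  · right; right; right; right; right; right; right; right; left; exact ⟨d1, by rw [d1, L1 hK]⟩
  by_cases d2 : u = -K + 2
  · right; right; right; right; right; right; right; right; right; left; exact ⟨d2, by rw [d2, L2 hK]⟩
  by_cases d7 : u = -K + 7
  · right; right; right; right; right; right; right; right; right; right; left; exact ⟨d7, by rw [d7, L7 hK]⟩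
  by_cases d8 : u = -K + 8
  · right; right; right; right; right; right; right; right; right; right; right; left; exact ⟨d8, by rw [d8, L8 hK]⟩
  by_cases d9 : u = -K + 9
  · right; right; right; right; right; right; right; right; right; right; right; right; left; exact ⟨d9, by rw [d9, L9 hK]⟩
  by_cases d10 : u = -K + 10
  · right; right; right; right; right; right; right; right; right; right; right; right; right; left; exact ⟨d10, by rw [d10, L10 hK]⟩
  right; right; right; right; right; right; right; right; right; right; right; right; right; right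
  unfold W
  rw [if_neg (by omega), if_neg (by omega), if_neg (by omega), if_neg (by omega),
    if_neg (by omega), if_neg (by omega), if_neg (by omega), if_neg (by omega),
    if_neg (by omega), if_neg (by omega), if_neg (by omega), if_neg (by omega),
    if_neg (by omega), if_neg (by omega)]

theorem W_inj {K : ℤ} (hK : 26 ≤ K) {u u' : ℤ} (e : W K u = W K u') : u = u' := by
  have b1 := V_bd u
  have b2 := V_bd u'
  obtain ⟨b11, b12⟩ := b1
  obtain ⟨b21, b22⟩ := b2
  rcases W_cases hK u with ⟨c, d⟩ | ⟨c, d⟩ | ⟨c, d⟩ | ⟨c, d⟩ | ⟨c, d⟩ | ⟨c, d⟩ | ⟨c, d⟩ | ⟨c, d⟩ |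
    ⟨c, d⟩ | ⟨c, d⟩ | ⟨c, d⟩ | ⟨c, d⟩ | ⟨c, d⟩ | ⟨c, d⟩ | d <;>
  rcases W_cases hK u' with ⟨c', d'⟩ | ⟨c', d'⟩ | ⟨c', d'⟩ | ⟨c', d'⟩ | ⟨c', d'⟩ | ⟨c', d'⟩ |
    ⟨c', d'⟩ | ⟨c', d'⟩ | ⟨c', d'⟩ | ⟨c', d'⟩ | ⟨c', d'⟩ | ⟨c', d'⟩ | ⟨c', d'⟩ | ⟨c', d'⟩ | d' <;>
  first
  | exact c.trans c'.symm
  | exact V_inj u u' (by rw [← d, ← d', e])
  | (exfalso; rw [d, d'] at e; linarith)

/-- Insertion of `x` just before position `q`. -/
def ins (f : ℤ → ℚ) (q : ℤ) (x : ℚ) (t : ℤ) : ℚ :=
  if t < q then f t else if t = q then x else f (t - 1)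

theorem ins_lt {f : ℤ → ℚ} {q : ℤ} {x : ℚ} {t : ℤ} (h : t < q) : ins f q x t = f t := by
  unfold ins; rw [if_pos h]

theorem ins_eq {f : ℤ → ℚ} {q : ℤ} {x : ℚ} : ins f q x q = x := by
  unfold ins; rw [if_neg (by omega), if_pos rfl]

theorem ins_gt {f : ℤ → ℚ} {q : ℤ} {x : ℚ} {t : ℤ} (h : q < t) : ins f q x t = f (t - 1) := by
  unfold ins; rw [if_neg (by omega), if_neg (by omega)]

/-- two-letter blocks -/
theorem sq2 {f : ℤ → ℚ} {s : ℤ} (n1 : f s ≠ f (s + 1)) (n2 : f (s + 2) ≠ f (s + 3))
    (h : f s < f (s + 1) ↔ f (s + 2) < f (s + 3)) : Sq f s 2 := by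
  intro a b ha ha' hb hb'
  interval_cases a <;> interval_cases b
  · simp
  · simpa [add_assoc] using h
  · have : f (s + 1) < f s ↔ f (s + 3) < f (s + 2) := by
      constructor
      · intro g
        rcases lt_or_gt_of_ne n2 with k | k
        · have := h.2 k; exact absurd g (not_lt.2 this.le)
        · exact k
      · intro g
        rcases lt_or_gt_of_ne n1 with k | k
        · have := h.1 k; exact absurd g (not_lt.2 this.le)
        · exact k
    simpa [add_assoc] using this
  · simp

/-- the pattern 2134 twice -/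
theorem sq4 {f : ℤ → ℚ} {s : ℤ} (g1 : f (s + 1) < f s) (g2 : f s < f (s + 2))
    (g3 : f (s + 2) < f (s + 3)) (k1 : f (s + 5) < f (s + 4)) (k2 : f (s + 4) < f (s + 6))
    (k3 : f (s + 6) < f (s + 7)) : Sq f s 4 := by
  intro a b ha ha' hb hb'
  rw [add_assoc, add_assoc]
  have e : ∀ i : ℤ, s + (4 + i) = s + (4 + i) := fun _ => rfl
  interval_cases a <;> interval_cases b <;> norm_num <;>
  first
  | exact iff_of_true (by linarith) (by linarith)
  | exact iff_of_false (by linarith) (by linarith)

/-- the pattern 54673128 twice -/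
theorem sq8 {f : ℤ → ℚ} {s : ℤ} (g1 : f (s + 5) < f (s + 6)) (g2 : f (s + 6) < f (s + 4))
    (g3 : f (s + 4) < f (s + 1)) (g4 : f (s + 1) < f s) (g5 : f s < f (s + 2))
    (g6 : f (s + 2) < f (s + 3)) (g7 : f (s + 3) < f (s + 7))
    (k1 : f (s + 13) < f (s + 14)) (k2 : f (s + 14) < f (s + 12))
    (k3 : f (s + 12) < f (s + 9)) (k4 : f (s + 9) < f (s + 8)) (k5 : f (s + 8) < f (s + 10))
    (k6 : f (s + 10) < f (s + 11)) (k7 : f (s + 11) < f (s + 15)) : Sq f s 8 := by
  intro a b ha ha' hb hb'
  rw [add_assoc, add_assoc]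
  interval_cases a <;> interval_cases b <;> norm_num <;>
  first
  | exact iff_of_true (by linarith) (by linarith)
  | exact iff_of_false (by linarith) (by linarith)

theorem ext_mid {K : ℤ} (hK : 26 ≤ K) (h8 : K % 8 = 2) {q : ℤ} (hq : -K + 3 ≤ q) (hq' : q ≤ K - 2)
    {x : ℚ} (hx : ∀ u, -K ≤ u → u ≤ K → W K u ≠ x) :
    ∃ s l : ℤ, 2 ≤ l ∧ -K ≤ s ∧ s + 2 * l ≤ K + 2 ∧ Sq (ins (W K) q x) s l := by
  obtain ⟨c, rfl⟩ : ∃ c, q = c + 3 := ⟨q - 3, by ring⟩
  have s0 := W_sign hK h8 (u := c) (by omega) (by omega)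
  have s1 := W_sign hK h8 (u := c + 1) (by omega) (by omega)
  have s3 := W_sign hK h8 (u := c + 3) (by omega) (by omega)
  have s4 := W_sign hK h8 (u := c + 4) (by omega) (by omega)
  rw [show c + 1 + 1 = c + 2 by ring] at s1
  rw [show c + 3 + 1 = c + 4 by ring] at s3
  rw [show c + 4 + 1 = c + 5 by ring] at s4
  have F0 : ins (W K) (c + 3) x c = W K c := ins_lt (by omega)
  have F1 : ins (W K) (c + 3) x (c + 1) = W K (c + 1) := ins_lt (by omega)
  have F2 : ins (W K) (c + 3) x (c + 2) = W K (c + 2) := ins_lt (by omega)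
  have F3 : ins (W K) (c + 3) x (c + 3) = x := ins_eq
  have F4 : ins (W K) (c + 3) x (c + 4) = W K (c + 3) := by
    rw [ins_gt (by omega)]; congr 1; ring
  have F5 : ins (W K) (c + 3) x (c + 5) = W K (c + 4) := by
    rw [ins_gt (by omega)]; congr 1; ring
  have F6 : ins (W K) (c + 3) x (c + 6) = W K (c + 5) := by
    rw [ins_gt (by omega)]; congr 1; ring
  have n01 : W K c ≠ W K (c + 1) := fun e => by have := W_inj hK e; omega
  have n12 : W K (c + 1) ≠ W K (c + 2) := fun e => by have := W_inj hK e; omega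
  have n34 : W K (c + 3) ≠ W K (c + 4) := fun e => by have := W_inj hK e; omega
  have n45 : W K (c + 4) ≠ W K (c + 5) := fun e => by have := W_inj hK e; omega
  have n2x : W K (c + 2) ≠ x := hx _ (by omega) (by omega)
  have n3x : x ≠ W K (c + 3) := (hx _ (by omega) (by omega)).symm
  by_contra hcon
  push Not at hcon
  have m0 : ¬ (W K c < W K (c + 1) ↔ W K (c + 2) < x) := fun e => by
    refine hcon c 2 (by omega) (by omega) (by omega) (sq2 ?_ ?_ ?_)
    · rw [F0, F1]; exact n01
    · rw [F2, F3]; exact n2x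
    · rw [F0, F1, F2, F3]; exact e
  have m1 : ¬ (W K (c + 1) < W K (c + 2) ↔ x < W K (c + 3)) := fun e => by
    refine hcon (c + 1) 2 (by omega) (by omega) (by omega) (sq2 ?_ ?_ ?_)
    · rw [show c + 1 + 1 = c + 2 by ring, F1, F2]; exact n12
    · rw [show c + 1 + 2 = c + 3 by ring, show c + 1 + 3 = c + 4 by ring, F3, F4]; exact n3x
    · rw [show c + 1 + 1 = c + 2 by ring, show c + 1 + 2 = c + 3 by ring,
        show c + 1 + 3 = c + 4 by ring, F1, F2, F3, F4]; exact e
  have m2 : ¬ (W K (c + 2) < x ↔ W K (c + 3) < W K (c + 4)) := fun e => by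
    refine hcon (c + 2) 2 (by omega) (by omega) (by omega) (sq2 ?_ ?_ ?_)
    · rw [show c + 2 + 1 = c + 3 by ring, F2, F3]; exact n2x
    · rw [show c + 2 + 2 = c + 4 by ring, show c + 2 + 3 = c + 5 by ring, F4, F5]; exact n34
    · rw [show c + 2 + 1 = c + 3 by ring, show c + 2 + 2 = c + 4 by ring,
        show c + 2 + 3 = c + 5 by ring, F2, F3, F4, F5]; exact e
  have m3 : ¬ (x < W K (c + 3) ↔ W K (c + 4) < W K (c + 5)) := fun e => by
    refine hcon (c + 3) 2 (by omega) (by omega) (by omega) (sq2 ?_ ?_ ?_)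
    · rw [show c + 3 + 1 = c + 4 by ring, F3, F4]; exact n3x
    · rw [show c + 3 + 2 = c + 5 by ring, show c + 3 + 3 = c + 6 by ring, F5, F6]; exact n45
    · rw [show c + 3 + 1 = c + 4 by ring, show c + 3 + 2 = c + 5 by ring,
        show c + 3 + 3 = c + 6 by ring, F3, F4, F5, F6]; exact e
  rw [s0] at m0
  rw [s1] at m1
  rw [s3] at m2
  rw [s4] at m3
  by_cases A : W K (c + 2) < x <;> by_cases B : x < W K (c + 3) <;>
    simp only [A, B, iff_true, iff_false, true_iff, false_iff, not_not] at m0 m1 m2 m3 <;> omega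

theorem ext_right {K : ℤ} (hK : 26 ≤ K) (h8 : K % 8 = 2) {q : ℤ} (hq : K - 1 ≤ q) (hq' : q ≤ K + 1)
    {x : ℚ} (hx : ∀ u, -K ≤ u → u ≤ K → W K u ≠ x) :
    ∃ s l : ℤ, 2 ≤ l ∧ -K ≤ s ∧ s + 2 * l ≤ K + 2 ∧ Sq (ins (W K) q x) s l := by
  have vA := V_mid4 (u := K - 14) (by omega)
  have vB := V_low (u := K - 13) (by omega)
  have vC := V_mid6 (u := K - 12) (by omega)
  have vC' := V_mid (u := K - 12) (by omega)
  have vD := V_high (u := K - 11) (by omega)
  have va := V_mid4 (u := K - 6) (by omega)
  have vb := V_low (u := K - 5) (by omega)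
  have vc := V_mid6 (u := K - 4) (by omega)
  have vc' := V_mid (u := K - 4) (by omega)
  have vd := V_high (u := K - 3) (by omega)
  obtain ⟨vA1, vA2⟩ := vA
  obtain ⟨vB1, vB2⟩ := vB
  obtain ⟨vC1, vC2⟩ := vC'
  obtain ⟨vD1, vD2⟩ := vD
  obtain ⟨va1, va2⟩ := va
  obtain ⟨vb1, vb2⟩ := vb
  obtain ⟨vc1, vc2⟩ := vc'
  obtain ⟨vd1, vd2⟩ := vd
  have x0 : (30 : ℚ) ≠ x := by rw [← W0 K]; exact hx _ (by omega) (by omega)
  have x1 : (-21 : ℚ) ≠ x := by rw [← W1 K]; exact hx _ (by omega) (by omega)
  have x2 : (-20 : ℚ) ≠ x := by rw [← W2 K]; exact hx _ (by omega) (by omega)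
  have F14 : ins (W K) q x (K - 14) = V (K - 14) := by
    rw [ins_lt (by omega), W_normal (Or.inl (by omega)) hK]
  have F13 : ins (W K) q x (K - 13) = V (K - 13) := by
    rw [ins_lt (by omega), W_normal (Or.inl (by omega)) hK]
  have F12 : ins (W K) q x (K - 12) = V (K - 12) := by
    rw [ins_lt (by omega), W_normal (Or.inl (by omega)) hK]
  have F11 : ins (W K) q x (K - 11) = V (K - 11) := by
    rw [ins_lt (by omega), W_normal (Or.inl (by omega)) hK]
  have F10 : ins (W K) q x (K - 10) = -10 := by rw [ins_lt (by omega), W10]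
  have F9 : ins (W K) q x (K - 9) = -12 := by rw [ins_lt (by omega), W9]
  have F8 : ins (W K) q x (K - 8) = -11 := by rw [ins_lt (by omega), W8]
  have F7 : ins (W K) q x (K - 7) = 25 := by rw [ins_lt (by omega), W7]
  have F6 : ins (W K) q x (K - 6) = V (K - 6) := by
    rw [ins_lt (by omega), W_normal (Or.inr (by omega)) hK]
  have F5 : ins (W K) q x (K - 5) = V (K - 5) := by
    rw [ins_lt (by omega), W_normal (Or.inr (by omega)) hK]
  have F4 : ins (W K) q x (K - 4) = V (K - 4) := by
    rw [ins_lt (by omega), W_normal (Or.inr (by omega)) hK]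
  have F3 : ins (W K) q x (K - 3) = V (K - 3) := by
    rw [ins_lt (by omega), W_normal (Or.inr (by omega)) hK]
  have F2 : ins (W K) q x (K - 2) = -20 := by rw [ins_lt (by omega), W2]
  have hq3 : q = K + 1 ∨ q = K ∨ q = K - 1 := by omega
  rcases hq3 with rfl | rfl | rfl
  · have G1 : ins (W K) (K + 1) x (K - 1) = -21 := by rw [ins_lt (by omega), W1]
    have G0 : ins (W K) (K + 1) x K = 30 := by rw [ins_lt (by omega), W0]
    have Gx : ins (W K) (K + 1) x (K + 1) = x := ins_eq
    rcases lt_or_gt_of_ne x0 with c | c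
    · refine ⟨K - 6, 4, by omega, by omega, by omega, ?_⟩
      apply sq4
      · rw [show K - 6 + 1 = K - 5 by ring, F5, F6]; linarith
      · rw [show K - 6 + 2 = K - 4 by ring, F4, F6]; linarith
      · rw [show K - 6 + 2 = K - 4 by ring, show K - 6 + 3 = K - 3 by ring, F4, F3]; linarith
      · rw [show K - 6 + 5 = K - 1 by ring, show K - 6 + 4 = K - 2 by ring, G1, F2]; norm_num
      · rw [show K - 6 + 4 = K - 2 by ring, show K - 6 + 6 = K by ring, G0, F2]; norm_num
      · rw [show K - 6 + 6 = K by ring, show K - 6 + 7 = K + 1 by ring, G0, Gx]; exact c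
    · refine ⟨K - 2, 2, by omega, by omega, by omega, ?_⟩
      apply sq2
      · rw [show K - 2 + 1 = K - 1 by ring, G1, F2]; norm_num
      · rw [show K - 2 + 2 = K by ring, show K - 2 + 3 = K + 1 by ring, G0, Gx]; exact x0
      · rw [show K - 2 + 1 = K - 1 by ring, show K - 2 + 2 = K by ring,
          show K - 2 + 3 = K + 1 by ring, G0, Gx, G1, F2]
        exact iff_of_false (by norm_num) (by linarith)
  · have G1 : ins (W q) q x (q - 1) = -21 := by rw [ins_lt (by omega), W1]
    have Gx : ins (W q) q x q = x := ins_eq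
    have G0 : ins (W q) q x (q + 1) = 30 := by
      rw [ins_gt (by omega), show q + 1 - 1 = q by ring, W0]
    rcases lt_or_gt_of_ne x1 with c | c
    · rcases lt_or_gt_of_ne x2 with d | d
      · rcases lt_or_gt_of_ne x0 with e | e
        · refine ⟨q - 2, 2, by omega, by omega, by omega, ?_⟩
          apply sq2
          · rw [show q - 2 + 1 = q - 1 by ring, G1, F2]; norm_num
          · rw [show q - 2 + 2 = q by ring, show q - 2 + 3 = q + 1 by ring, G0, Gx]; exact x0.symm
          · rw [show q - 2 + 1 = q - 1 by ring, show q - 2 + 2 = q by ring,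
              show q - 2 + 3 = q + 1 by ring, G0, Gx, G1, F2]
            exact iff_of_false (by norm_num) (by linarith)
        · refine ⟨q - 6, 4, by omega, by omega, by omega, ?_⟩
          apply sq4
          · rw [show q - 6 + 1 = q - 5 by ring, F5, F6]; linarith
          · rw [show q - 6 + 2 = q - 4 by ring, F4, F6]; linarith
          · rw [show q - 6 + 2 = q - 4 by ring, show q - 6 + 3 = q - 3 by ring, F4, F3]; linarith
          · rw [show q - 6 + 5 = q - 1 by ring, show q - 6 + 4 = q - 2 by ring, G1, F2]; norm_num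
          · rw [show q - 6 + 4 = q - 2 by ring, show q - 6 + 6 = q by ring, Gx, F2]; exact d
          · rw [show q - 6 + 6 = q by ring, show q - 6 + 7 = q + 1 by ring, G0, Gx]; exact e
      · refine ⟨q - 14, 8, by omega, by omega, by omega, ?_⟩
        apply sq8
        · rw [show q - 14 + 5 = q - 9 by ring, show q - 14 + 6 = q - 8 by ring, F9, F8]; norm_num
        · rw [show q - 14 + 4 = q - 10 by ring, show q - 14 + 6 = q - 8 by ring, F10, F8]; norm_num
        · rw [show q - 14 + 4 = q - 10 by ring, show q - 14 + 1 = q - 13 by ring, F10, F13]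
          linarith
        · rw [show q - 14 + 1 = q - 13 by ring, F14, F13]; linarith
        · rw [show q - 14 + 2 = q - 12 by ring, F14, F12]; linarith
        · rw [show q - 14 + 2 = q - 12 by ring, show q - 14 + 3 = q - 11 by ring, F11, F12]
          linarith
        · rw [show q - 14 + 3 = q - 11 by ring, show q - 14 + 7 = q - 7 by ring, F11, F7]
          linarith
        · rw [show q - 14 + 13 = q - 1 by ring, show q - 14 + 14 = q by ring, G1, Gx]; exact c
        · rw [show q - 14 + 12 = q - 2 by ring, show q - 14 + 14 = q by ring, F2, Gx]; exact d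
        · rw [show q - 14 + 12 = q - 2 by ring, show q - 14 + 9 = q - 5 by ring, F2, F5]; linarith
        · rw [show q - 14 + 9 = q - 5 by ring, show q - 14 + 8 = q - 6 by ring, F6, F5]; linarith
        · rw [show q - 14 + 8 = q - 6 by ring, show q - 14 + 10 = q - 4 by ring, F6, F4]; linarith
        · rw [show q - 14 + 11 = q - 3 by ring, show q - 14 + 10 = q - 4 by ring, F3, F4]; linarith
        · rw [show q - 14 + 11 = q - 3 by ring, show q - 14 + 15 = q + 1 by ring, F3, G0]; linarith
    · refine ⟨q - 3, 2, by omega, by omega, by omega, ?_⟩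
      apply sq2
      · rw [show q - 3 + 1 = q - 2 by ring, F3, F2]; intro h; linarith
      · rw [show q - 3 + 2 = q - 1 by ring, show q - 3 + 3 = q by ring, G1, Gx]; exact x1
      · rw [show q - 3 + 1 = q - 2 by ring, show q - 3 + 2 = q - 1 by ring,
          show q - 3 + 3 = q by ring, F3, F2, G1, Gx]
        exact iff_of_false (by linarith) (by linarith)
  · have Gx : ins (W K) (K - 1) x (K - 1) = x := ins_eq
    have G1 : ins (W K) (K - 1) x K = -21 := by
      rw [ins_gt (by omega), W1]
    have G0 : ins (W K) (K - 1) x (K + 1) = 30 := by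
      rw [ins_gt (by omega), show K + 1 - 1 = K by ring, W0]
    rcases lt_or_gt_of_ne x1 with c | c
    · rcases lt_or_gt_of_ne x2 with d | d
      · refine ⟨K - 4, 2, by omega, by omega, by omega, ?_⟩
        apply sq2
        · rw [show K - 4 + 1 = K - 3 by ring, F3, F4]; intro h; linarith
        · rw [show K - 4 + 2 = K - 2 by ring, show K - 4 + 3 = K - 1 by ring, F2, Gx]; exact x2
        · rw [show K - 4 + 1 = K - 3 by ring, show K - 4 + 2 = K - 2 by ring,
            show K - 4 + 3 = K - 1 by ring, F3, F4, F2, Gx]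
          exact iff_of_true (by linarith) d
      · refine ⟨K - 3, 2, by omega, by omega, by omega, ?_⟩
        apply sq2
        · rw [show K - 3 + 1 = K - 2 by ring, F3, F2]; intro h; linarith
        · rw [show K - 3 + 2 = K - 1 by ring, show K - 3 + 3 = K by ring, G1, Gx]; exact x1.symm
        · rw [show K - 3 + 1 = K - 2 by ring, show K - 3 + 2 = K - 1 by ring,
            show K - 3 + 3 = K by ring, F3, F2, G1, Gx]
          exact iff_of_false (by linarith) (by linarith)
    · refine ⟨K - 14, 8, by omega, by omega, by omega, ?_⟩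
      apply sq8
      · rw [show K - 14 + 5 = K - 9 by ring, show K - 14 + 6 = K - 8 by ring, F9, F8]; norm_num
      · rw [show K - 14 + 4 = K - 10 by ring, show K - 14 + 6 = K - 8 by ring, F10, F8]; norm_num
      · rw [show K - 14 + 4 = K - 10 by ring, show K - 14 + 1 = K - 13 by ring, F10, F13]
        linarith
      · rw [show K - 14 + 1 = K - 13 by ring, F14, F13]; linarith
      · rw [show K - 14 + 2 = K - 12 by ring, F14, F12]; linarith
      · rw [show K - 14 + 2 = K - 12 by ring, show K - 14 + 3 = K - 11 by ring, F11, F12]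
        linarith
      · rw [show K - 14 + 3 = K - 11 by ring, show K - 14 + 7 = K - 7 by ring, F11, F7]
        linarith
      · rw [show K - 14 + 13 = K - 1 by ring, show K - 14 + 14 = K by ring, G1, Gx]; exact c
      · rw [show K - 14 + 12 = K - 2 by ring, show K - 14 + 14 = K by ring, F2, G1]; norm_num
      · rw [show K - 14 + 12 = K - 2 by ring, show K - 14 + 9 = K - 5 by ring, F2, F5]; linarith
      · rw [show K - 14 + 9 = K - 5 by ring, show K - 14 + 8 = K - 6 by ring, F6, F5]; linarith
      · rw [show K - 14 + 8 = K - 6 by ring, show K - 14 + 10 = K - 4 by ring, F6, F4]; linarith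
      · rw [show K - 14 + 11 = K - 3 by ring, show K - 14 + 10 = K - 4 by ring, F3, F4]; linarith
      · rw [show K - 14 + 11 = K - 3 by ring, show K - 14 + 15 = K + 1 by ring, F3, G0]; linarith

theorem Sq.reflect' {f g : ℤ → ℚ} (hf : ∀ u, g (1 - u) = - f u) {s l : ℤ} (hsq : Sq f s l) :
    Sq g (2 - s - 2 * l) l := by
  intro a b ha ha' hb hb'
  have := hsq (l - 1 - b) (l - 1 - a) (by omega) (by omega) (by omega) (by omega)
  rw [show 2 - s - 2 * l + a = 1 - (s + l + (l - 1 - a)) by ring,
    show 2 - s - 2 * l + b = 1 - (s + l + (l - 1 - b)) by ring,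
    show 2 - s - 2 * l + l + a = 1 - (s + (l - 1 - a)) by ring,
    show 2 - s - 2 * l + l + b = 1 - (s + (l - 1 - b)) by ring,
    hf, hf, hf, hf, neg_lt_neg_iff, neg_lt_neg_iff]
  exact this.symm

theorem ext_all {K : ℤ} (hK : 26 ≤ K) (h8 : K % 8 = 2) {q : ℤ} (hq : -K ≤ q) (hq' : q ≤ K + 1)
    {x : ℚ} (hx : ∀ u, -K ≤ u → u ≤ K → W K u ≠ x) :
    ∃ s l : ℤ, 2 ≤ l ∧ -K ≤ s ∧ s + 2 * l ≤ K + 2 ∧ Sq (ins (W K) q x) s l := by
  by_cases c1 : K - 1 ≤ q
  · exact ext_right hK h8 c1 hq' hx
  by_cases c2 : -K + 3 ≤ q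
  · exact ext_mid hK h8 c2 (by omega) hx
  obtain ⟨s, l, hl, hs, hs', hsq⟩ := ext_right (x := -x) hK h8 (q := 1 - q) (by omega) (by omega)
    (fun u hu hu' e => hx (-u) (by omega) (by omega) (by rw [W_neg hK, e, neg_neg]))
  refine ⟨2 - s - 2 * l, l, hl, by omega, by omega, hsq.reflect' ?_⟩
  intro u
  rcases lt_trichotomy u (1 - q) with c | c | c
  · rw [ins_lt c, ins_gt (by omega), show 1 - u - 1 = -u by ring, W_neg hK]
  · rw [c, ins_eq, show 1 - (1 - q) = q by ring, ins_eq, neg_neg]
  · rw [ins_gt c, ins_lt (by omega), show 1 - u = -(u - 1) by ring, W_neg hK]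

/-- The word as a list. -/
def wl (K : ℕ) : List ℚ := (List.range (2 * K + 1)).map (fun t : ℕ => W K ((t : ℤ) - K))

theorem wl_length (K : ℕ) : (wl K).length = 2 * K + 1 := by simp [wl]

theorem wl_getElem? (K : ℕ) {i : ℕ} (hi : i < 2 * K + 1) :
    (wl K)[i]? = some (W K ((i : ℤ) - K)) := by
  simp [wl, List.getElem?_map, List.getElem?_range hi]

theorem wl_getD (K : ℕ) {i : ℕ} (hi : i < 2 * K + 1) :
    (wl K).getD i 0 = W K ((i : ℤ) - K) := by
  rw [List.getD_eq_getElem?_getD, wl_getElem? K hi]; rfl

theorem wl_ins_getD (K : ℕ) {p : ℕ} (hp : p ≤ 2 * K + 1) (x : ℚ) {i : ℕ} (hi : i < 2 * K + 2) :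
    ((wl K).take p ++ x :: (wl K).drop p).getD i 0 = ins (W K) ((p : ℤ) - K) x ((i : ℤ) - K) := by
  have hlen : ((wl K).take p).length = p := by
    rw [List.length_take, wl_length]; omega
  rw [List.getD_eq_getElem?_getD]
  rcases lt_trichotomy i p with c | c | c
  · rw [List.getElem?_append_left (by omega), List.getElem?_take_of_lt c, wl_getElem? K (by omega),
      ins_lt (by omega)]
    rfl
  · subst c
    rw [List.getElem?_append_right (by omega), hlen, Nat.sub_self, ins_eq]
    rfl
  · obtain ⟨j, rfl⟩ : ∃ j, i = p + (j + 1) := ⟨i - p - 1, by omega⟩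
    rw [List.getElem?_append_right (by omega), hlen, Nat.add_sub_cancel_left,
      List.getElem?_cons_succ, List.getElem?_drop, wl_getElem? K (by omega), ins_gt (by omega)]
    simp only [Option.getD_some]
    congr 1
    push_cast
    ring

theorem wl_nodup {K : ℕ} (hK : 26 ≤ K) : (wl K).Nodup := by
  unfold wl
  refine List.Nodup.map_on ?_ List.nodup_range
  intro a _ b _ e
  have := W_inj (K := (K : ℤ)) (by exact_mod_cast hK) e
  omega

theorem mem_wl {K : ℕ} {x : ℚ} (hx : x ∉ wl K) (u : ℤ) (hu : -(K : ℤ) ≤ u) (hu' : u ≤ K) :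
    W K u ≠ x := by
  intro e
  apply hx
  unfold wl
  rw [List.mem_map]
  refine ⟨(u + K).toNat, ?_, ?_⟩
  · rw [List.mem_range]; omega
  · rw [← e]
    congr 1
    omega

theorem final (N : ℕ) : ∃ w : List ℚ, N ≤ w.length ∧ w.Nodup ∧
      (¬ ∃ i ℓ : ℕ, 2 ≤ ℓ ∧ i + 2 * ℓ ≤ w.length ∧
          ∀ a < ℓ, ∀ b < ℓ,
            (w.getD (i + a) 0 < w.getD (i + b) 0 ↔
              w.getD (i + ℓ + a) 0 < w.getD (i + ℓ + b) 0)) ∧
      ∀ p : ℕ, p ≤ w.length → ∀ x : ℚ, x ∉ w →
        ∃ i ℓ : ℕ, 2 ≤ ℓ ∧ i + 2 * ℓ ≤ w.length + 1 ∧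
          ∀ a < ℓ, ∀ b < ℓ,
            ((w.take p ++ x :: w.drop p).getD (i + a) 0 <
                (w.take p ++ x :: w.drop p).getD (i + b) 0 ↔
              (w.take p ++ x :: w.drop p).getD (i + ℓ + a) 0 <
                (w.take p ++ x :: w.drop p).getD (i + ℓ + b) 0) := by
  obtain ⟨K, hKN, hK, h8⟩ : ∃ K : ℕ, N ≤ K ∧ 26 ≤ K ∧ K % 8 = 2 :=
    ⟨8 * (N + 3) + 2, by omega, by omega, by omega⟩
  have hK' : (26 : ℤ) ≤ K := by exact_mod_cast hK
  have h8' : (K : ℤ) % 8 = 2 := by exact_mod_cast h8
  refine ⟨wl K, by rw [wl_length]; omega, wl_nodup hK, ?_, ?_⟩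
  · rintro ⟨i, l, hl, hil, hsq⟩
    rw [wl_length] at hil
    refine W_noSq hK' h8' (s := (i : ℤ) - K) (l := l) (by omega) (by omega) (by omega) ?_
    intro a b ha ha' hb hb'
    lift a to ℕ using ha
    lift b to ℕ using hb
    have := hsq a (by omega) b (by omega)
    rw [wl_getD K (by omega), wl_getD K (by omega), wl_getD K (by omega), wl_getD K (by omega)]
      at this
    push_cast at this
    rw [show (i : ℤ) - K + a = i + a - K by ring, show (i : ℤ) - K + b = i + b - K by ring,
      show (i : ℤ) - K + l + a = i + l + a - K by ring,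
      show (i : ℤ) - K + l + b = i + l + b - K by ring]
    exact this
  · intro p hp x hx
    rw [wl_length] at hp ⊢
    obtain ⟨s, l, hl, hs, hs', hsq⟩ := ext_all hK' h8' (q := (p : ℤ) - K) (by omega) (by omega)
      (x := x) (mem_wl hx)
    lift l to ℕ using (by omega)
    obtain ⟨i, hi⟩ : ∃ i : ℕ, s = (i : ℤ) - K := ⟨(s + K).toNat, by omega⟩
    subst hi
    refine ⟨i, l, by omega, by omega, ?_⟩
    intro a ha b hb
    have := hsq a b (by omega) (by omega) (by omega) (by omega)
    rw [wl_ins_getD K hp x (by omega), wl_ins_getD K hp x (by omega),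
      wl_ins_getD K hp x (by omega), wl_ins_getD K hp x (by omega)]
    push_cast
    rw [show (i : ℤ) - K + a = i + a - K by ring, show (i : ℤ) - K + b = i + b - K by ring,
      show (i : ℤ) - K + l + a = i + l + a - K by ring,
      show (i : ℤ) - K + l + b = i + l + b - K by ring] at this
    exact this

end Q159.ExtremalPerm
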