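import Mathlib

/-!
# The equivariant bijection behind MP_53071c_co

Words are functions `ℕ → Bool`.  The window `w` of a word `x` is active with the parameter `b` if
`x` reads `1 b 0 0` at the positions `w, …, w+3`.  A move at an active window flips the two
neighbouring positions `w-1` and `w+4`.  We construct a bijection of words which turns the moves
with parameter `b = 0` (difference pattern `1000`) into those with parameter `b = 1`
(difference pattern `1100`).
-/

namespace Q159.KeywordCore

/-- The window `w` reads `1 b 0 0`. -/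
def act (b : Bool) (x : ℕ → Bool) (w : ℕ) : Prop :=
  x w = true ∧ x (w + 1) = b ∧ x (w + 2) = false ∧ x (w + 3) = false

/-- Flip the two neighbours of the window `w`. -/
def flipN (w : ℕ) (x : ℕ → Bool) : ℕ → Bool :=
  fun p => if p + 1 = w ∨ p = w + 4 then !x p else x p

open Classical in
/-- The move at the window `w`. -/
noncomputable def mv (b : Bool) (w : ℕ) (x : ℕ → Bool) : ℕ → Bool :=
  if act b x w then flipN w x else x

theorem flipN_ne {w p : ℕ} (x : ℕ → Bool) (h1 : p + 1 ≠ w) (h2 : p ≠ w + 4) :
    flipN w x p = x p := by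
  unfold flipN
  rw [if_neg]
  omega

theorem act_flipN {b : Bool} {x : ℕ → Bool} {w : ℕ} : act b (flipN w x) w ↔ act b x w := by
  unfold act
  rw [flipN_ne x (by omega) (by omega), flipN_ne x (by omega) (by omega),
    flipN_ne x (by omega) (by omega), flipN_ne x (by omega) (by omega)]

theorem flipN_flipN (w : ℕ) (x : ℕ → Bool) : flipN w (flipN w x) = x := by
  funext p
  unfold flipN
  split_ifs <;> simp

theorem mv_mv (b : Bool) (w : ℕ) (x : ℕ → Bool) : mv b w (mv b w x) = x := by
  unfold mv
  by_cases h : act b x w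
  · rw [if_pos h, if_pos (act_flipN.2 h), flipN_flipN]
  · rw [if_neg h, if_neg h]

/-- Chain to the right. -/
def RCh (j : ℕ) (x : ℕ → Bool) : Prop :=
  ∃ r, act true x (j + 4 * r) ∧
    ∀ q, q < r → x (j + 4 * q) = true ∧ x (j + 4 * q + 1) = true ∧ x (j + 4 * q + 2) = false

/-- Chain to the left. -/
def LCh (c : ℕ) (x : ℕ → Bool) : Prop :=
  ∃ z r, c = z + 4 * r + 4 ∧ act false x z ∧
    ∀ q, 1 ≤ q → q ≤ r → x (z + 4 * q + 1) = false ∧ x (z + 4 * q + 2) = false ∧
      x (z + 4 * q + 3) = false

/-- The invariant of the window `c`. -/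
def J (c : ℕ) (x : ℕ → Bool) : Prop :=
  x (c + 2) = false ∧ (x (c + 3) = false ∨ RCh (c + 4) x) ∧ (x c = true ∨ LCh c x)

theorem RCh_head {j : ℕ} {x : ℕ → Bool} (h : RCh j x) : x j = true ∧ x (j + 1) = true := by
  obtain ⟨r, h1, h2⟩ := h
  rcases Nat.eq_zero_or_pos r with h0 | h0
  · subst h0
    exact ⟨h1.1, h1.2.1⟩
  · have := h2 0 h0
    simpa using ⟨this.1, this.2.1⟩

theorem LCh_tail {c : ℕ} {x : ℕ → Bool} (h : LCh c x) : ∃ d, c = d + 4 ∧ x (d + 1) = false ∧
    x (d + 2) = false ∧ x (d + 3) = false := by
  obtain ⟨z, r, hc, h1, h2⟩ := h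
  rcases Nat.eq_zero_or_pos r with h0 | h0
  · subst h0
    exact ⟨z, by omega, h1.2⟩
  · exact ⟨z + 4 * r, by omega, h2 r h0 le_rfl⟩

/-- No active window overlaps `c`. -/
theorem no_overlap {c w : ℕ} {x : ℕ → Bool} (hJ : J c x) (hne : w ≠ c) (h1 : w < c + 4)
    (h2 : c < w + 4) (b : Bool) (hb : b = decide (c ≤ w)) : ¬ act b x w := by
  intro ha
  obtain ⟨hj1, hj2, hj3⟩ := hJ
  obtain ⟨a0, a1, a2, a3⟩ := ha
  rcases Nat.lt_or_ge c w with h | h
  · have hbt : b = true := by rw [hb]; simp; omega
    subst hbt
    obtain h | h | h : w = c + 1 ∨ w = c + 2 ∨ w = c + 3 := by omega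
    · subst h
      rw [show c + 1 + 1 = c + 2 by ring, hj1] at a1
      cases a1
    · subst h
      rw [hj1] at a0
      cases a0
    · subst h
      rcases hj2 with h3 | h3
      · rw [h3] at a0
        cases a0
      · have := (RCh_head h3).2
        rw [show c + 3 + 2 = c + 4 + 1 by ring, this] at a2
        cases a2
  · have hbf : b = false := by rw [hb]; simp; omega
    subst hbf
    have hxc : x c = false := by
      obtain h | h | h : c = w + 1 ∨ c = w + 2 ∨ c = w + 3 := by omega
      · rw [h]; exact a1
      · rw [h]; exact a2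
      · rw [h]; exact a3
    rcases hj3 with h3 | h3
    · rw [h3] at hxc
      cases hxc
    · obtain ⟨d, hd, d1, d2, d3⟩ := LCh_tail h3
      obtain h | h | h : w = d + 1 ∨ w = d + 2 ∨ w = d + 3 := by omega
      · rw [h, d1] at a0
        cases a0
      · rw [h, d2] at a0
        cases a0
      · rw [h, d3] at a0
        cases a0

theorem RCh_congr {j : ℕ} {x y : ℕ → Bool} (h : ∀ p, j ≤ p → x p = y p) (hx : RCh j x) :
    RCh j y := by
  obtain ⟨r, h1, h2⟩ := hx
  refine ⟨r, ?_, fun q hq => ?_⟩
  · unfold act at *
    rw [← h _ (by omega), ← h _ (by omega), ← h _ (by omega), ← h _ (by omega)]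
    exact h1
  · rw [← h _ (by omega), ← h _ (by omega), ← h _ (by omega)]
    exact h2 q hq

theorem LCh_congr {c : ℕ} {x y : ℕ → Bool} (h : ∀ p, p < c → x p = y p) (hx : LCh c x) :
    LCh c y := by
  obtain ⟨z, r, hc, h1, h2⟩ := hx
  refine ⟨z, r, hc, ?_, fun q hq1 hq2 => ?_⟩
  · unfold act at *
    rw [← h _ (by omega), ← h _ (by omega), ← h _ (by omega), ← h _ (by omega)]
    exact h1
  · rw [← h _ (by omega), ← h _ (by omega), ← h _ (by omega)]
    exact h2 q hq1 hq2

theorem RCh_flip {j w : ℕ} {x : ℕ → Bool} (h : RCh j x) (hw : j ≤ w) (ha : act true x w) :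
    RCh j (flipN w x) := by
  obtain ⟨r, h1, h2⟩ := h
  have hhead : ∀ q, q ≤ r → x (j + 4 * q) = true ∧ x (j + 4 * q + 1) = true ∧
      x (j + 4 * q + 2) = false := by
    intro q hq
    rcases Nat.lt_or_ge q r with h3 | h3
    · exact h2 q h3
    · have : q = r := by omega
      subst this
      exact ⟨h1.1, h1.2.1, h1.2.2.1⟩
  rcases Nat.lt_or_ge w (j + 4 * r + 4) with hlt | hge
  · obtain ⟨q, t, hq, ht, hwq⟩ : ∃ q t, q ≤ r ∧ t < 4 ∧ w = j + 4 * q + t :=
      ⟨(w - j) / 4, (w - j) % 4, by omega, by omega, by omega⟩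
    obtain ⟨a0, a1, a2, a3⟩ := ha
    have hq' := hhead q hq
    obtain rfl | rfl | rfl | rfl : t = 0 ∨ t = 1 ∨ t = 2 ∨ t = 3 := by omega
    · refine ⟨q, ?_, fun q' hq'2 => ?_⟩
      · rw [← Nat.add_zero (j + 4 * q), ← hwq]
        exact act_flipN.2 ⟨a0, a1, a2, a3⟩
      · rw [flipN_ne x (by omega) (by omega), flipN_ne x (by omega) (by omega),
          flipN_ne x (by omega) (by omega)]
        exact hhead q' (by omega)
    · exfalso
      rw [hwq, show j + 4 * q + 1 + 1 = j + 4 * q + 2 by ring, hq'.2.2] at a1
      cases a1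
    · exfalso
      rw [hwq, hq'.2.2] at a0
      cases a0
    · exfalso
      rcases Nat.lt_or_ge q r with h3 | h3
      · have := (hhead (q + 1) (by omega)).2.1
        rw [hwq, show j + 4 * q + 3 + 2 = j + 4 * (q + 1) + 1 by ring, this] at a2
        cases a2
      · have : q = r := by omega
        subst this
        rw [hwq, h1.2.2.2] at a0
        cases a0
  · rcases Nat.lt_or_ge (j + 4 * r + 4) w with h3 | h3
    · refine ⟨r, ?_, fun q hq => ?_⟩
      · unfold act at *
        rw [flipN_ne x (by omega) (by omega), flipN_ne x (by omega) (by omega),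
          flipN_ne x (by omega) (by omega), flipN_ne x (by omega) (by omega)]
        exact h1
      · rw [flipN_ne x (by omega) (by omega), flipN_ne x (by omega) (by omega),
          flipN_ne x (by omega) (by omega)]
        exact h2 q hq
    · have hw' : w = j + 4 * (r + 1) := by omega
      refine ⟨r + 1, ?_, fun q hq => ?_⟩
      · rw [← hw']
        exact act_flipN.2 ha
      · rw [flipN_ne x (by omega) (by omega), flipN_ne x (by omega) (by omega),
          flipN_ne x (by omega) (by omega)]
        exact hhead q (by omega)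

theorem LCh_flip {c w : ℕ} {x : ℕ → Bool} (h : LCh c x) (hw : w + 4 ≤ c) (ha : act false x w) :
    LCh c (flipN w x) := by
  obtain ⟨z, r, hc, h1, h2⟩ := h
  have htail : ∀ q, q ≤ r → x (z + 4 * q + 1) = false ∧ x (z + 4 * q + 2) = false ∧
      x (z + 4 * q + 3) = false := by
    intro q hq
    rcases Nat.eq_zero_or_pos q with h3 | h3
    · subst h3
      exact h1.2
    · exact h2 q h3 hq
  obtain ⟨a0, a1, a2, a3⟩ := ha
  rcases Nat.lt_or_ge w z with hlt | hge
  · rcases Nat.lt_or_ge z (w + 4) with h3 | h3
    · exfalso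
      have hz := h1.1
      obtain h4 | h4 | h4 : z = w + 1 ∨ z = w + 2 ∨ z = w + 3 := by omega
      · rw [h4, a1] at hz
        cases hz
      · rw [h4, a2] at hz
        cases hz
      · rw [h4, a3] at hz
        cases hz
    · rcases Nat.lt_or_ge (w + 4) z with h4 | h4
      · refine ⟨z, r, hc, ?_, fun q hq1 hq2 => ?_⟩
        · unfold act at *
          rw [flipN_ne x (by omega) (by omega), flipN_ne x (by omega) (by omega),
            flipN_ne x (by omega) (by omega), flipN_ne x (by omega) (by omega)]
          exact h1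
        · rw [flipN_ne x (by omega) (by omega), flipN_ne x (by omega) (by omega),
            flipN_ne x (by omega) (by omega)]
          exact h2 q hq1 hq2
      · have hz : z = w + 4 := by omega
        refine ⟨w, r + 1, by omega, act_flipN.2 ⟨a0, a1, a2, a3⟩, fun q hq1 hq2 => ?_⟩
        rw [flipN_ne x (by omega) (by omega), flipN_ne x (by omega) (by omega),
          flipN_ne x (by omega) (by omega)]
        have := htail (q - 1) (by omega)
        rw [show z + 4 * (q - 1) = w + 4 * q by omega] at this
        exact this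
  · obtain ⟨q, t, ht, hwq⟩ : ∃ q t, t < 4 ∧ w = z + 4 * q + t :=
      ⟨(w - z) / 4, (w - z) % 4, by omega, by omega⟩
    have hq : q ≤ r := by omega
    have hq' := htail q hq
    obtain rfl | rfl | rfl | rfl : t = 0 ∨ t = 1 ∨ t = 2 ∨ t = 3 := by omega
    · refine ⟨w, r - q, by omega, act_flipN.2 ⟨a0, a1, a2, a3⟩, fun q' h3 h4 => ?_⟩
      rw [flipN_ne x (by omega) (by omega), flipN_ne x (by omega) (by omega),
        flipN_ne x (by omega) (by omega)]
      have := htail (q + q') (by omega)
      rw [show z + 4 * (q + q') = w + 4 * q' by omega] at this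
      exact this
    · exfalso
      rw [hwq, hq'.1] at a0
      cases a0
    · exfalso
      rw [hwq, hq'.2.1] at a0
      cases a0
    · exfalso
      rw [hwq, hq'.2.2] at a0
      cases a0

/-- The invariant is preserved by the moves at the windows `w ≠ c`. -/
theorem J_flip {c w : ℕ} {x : ℕ → Bool} (hJ : J c x) (hne : w ≠ c) (b : Bool)
    (hb : b = decide (c ≤ w)) (ha : act b x w) : J c (flipN w x) := by
  have hno := no_overlap hJ hne
  have hcase : c + 4 ≤ w ∨ w + 4 ≤ c := by
    by_contra hcon
    exact hno (by omega) (by omega) b hb ha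
  obtain ⟨hj1, hj2, hj3⟩ := hJ
  rcases hcase with h | h
  · have hbt : b = true := by rw [hb]; simp; omega
    subst hbt
    refine ⟨?_, ?_, ?_⟩
    · rw [flipN_ne x (by omega) (by omega)]
      exact hj1
    · rcases Nat.lt_or_ge (c + 4) w with h1 | h1
      · rcases hj2 with h2 | h2
        · left
          rw [flipN_ne x (by omega) (by omega)]
          exact h2
        · right
          exact RCh_flip h2 (by omega) ha
      · right
        have : w = c + 4 := by omega
        subst this
        exact ⟨0, act_flipN.2 ha, fun q hq => by omega⟩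
    · rcases hj3 with h2 | h2
      · left
        rw [flipN_ne x (by omega) (by omega)]
        exact h2
      · right
        exact LCh_congr (fun p hp => (flipN_ne x (by omega) (by omega)).symm) h2
  · have hbf : b = false := by rw [hb]; simp; omega
    subst hbf
    refine ⟨?_, ?_, ?_⟩
    · rw [flipN_ne x (by omega) (by omega)]
      exact hj1
    · rcases hj2 with h2 | h2
      · left
        rw [flipN_ne x (by omega) (by omega)]
        exact h2
      · right
        exact RCh_congr (fun p hp => (flipN_ne x (by omega) (by omega)).symm) h2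
    · rcases Nat.lt_or_ge (w + 4) c with h1 | h1
      · rcases hj3 with h2 | h2
        · left
          rw [flipN_ne x (by omega) (by omega)]
          exact h2
        · right
          exact LCh_flip h2 (by omega) ha
      · right
        exact ⟨w, 0, by omega, act_flipN.2 ha, fun q hq1 hq2 => by omega⟩

/-- Flip position `c + 1`. -/
def fl (c : ℕ) (x : ℕ → Bool) : ℕ → Bool := fun p => if p = c + 1 then !x p else x p

theorem fl_ne {c p : ℕ} (x : ℕ → Bool) (h : p ≠ c + 1) : fl c x p = x p := by
  unfold fl
  rw [if_neg h]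

theorem fl_fl (c : ℕ) (x : ℕ → Bool) : fl c (fl c x) = x := by
  funext p
  unfold fl
  split_ifs <;> simp

theorem J_fl {c : ℕ} {x : ℕ → Bool} (h : J c x) : J c (fl c x) := by
  obtain ⟨h1, h2, h3⟩ := h
  refine ⟨?_, ?_, ?_⟩
  · rw [fl_ne x (by omega)]
    exact h1
  · rcases h2 with h2 | h2
    · left
      rw [fl_ne x (by omega)]
      exact h2
    · right
      exact RCh_congr (fun p hp => (fl_ne x (by omega)).symm) h2
  · rcases h3 with h3 | h3
    · left
      rw [fl_ne x (by omega)]
      exact h3
    · right
      exact LCh_congr (fun p hp => (fl_ne x (by omega)).symm) h3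

theorem J_of_act {c : ℕ} {b : Bool} {x : ℕ → Bool} (h : act b x c) : J c x :=
  ⟨h.2.2.1, Or.inl h.2.2.2, Or.inl h.1⟩

open Classical in
/-- The elementary bijection. -/
noncomputable def Th1 (c : ℕ) (x : ℕ → Bool) : ℕ → Bool := if J c x then fl c x else x

theorem Th1_Th1 (c : ℕ) (x : ℕ → Bool) : Th1 c (Th1 c x) = x := by
  unfold Th1
  by_cases h : J c x
  · rw [if_pos h, if_pos (J_fl h), fl_fl]
  · rw [if_neg h, if_neg h]

theorem fl_flipN {c w : ℕ} (x : ℕ → Bool) :
    fl c (flipN w x) = flipN w (fl c x) := by
  funext p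
  by_cases h1 : p = c + 1 <;> by_cases h2 : p + 1 = w ∨ p = w + 4
  · simp only [fl, flipN, if_pos h1, if_pos h2]
  · simp only [fl, flipN, if_pos h1, if_neg h2]
  · simp only [fl, flipN, if_neg h1, if_pos h2]
  · simp only [fl, flipN, if_neg h1, if_neg h2]

theorem Th1_mv (c w : ℕ) (x : ℕ → Bool) :
    Th1 c (mv (decide (c + 1 ≤ w)) w x) = mv (decide (c ≤ w)) w (Th1 c x) := by
  classical
  by_cases hwc : w = c
  · subst hwc
    rw [show decide (w + 1 ≤ w) = false by simp, show decide (w ≤ w) = true by simp]
    by_cases ha : act false x w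
    · have hJ : J w x := J_of_act ha
      have hact : act true (fl w x) w := by
        obtain ⟨a0, a1, a2, a3⟩ := ha
        refine ⟨?_, ?_, ?_, ?_⟩
        · rw [fl_ne x (by omega)]; exact a0
        · unfold fl; rw [if_pos rfl, a1]; rfl
        · rw [fl_ne x (by omega)]; exact a2
        · rw [fl_ne x (by omega)]; exact a3
      have hJ' : J w (flipN w x) := J_of_act (act_flipN.2 ha)
      unfold mv Th1
      rw [if_pos ha, if_pos hJ', if_pos hJ, if_pos hact, fl_flipN x]
    · have hna : ¬ act true (Th1 w x) w := by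
        intro h
        unfold Th1 at h
        by_cases hJ : J w x
        · rw [if_pos hJ] at h
          apply ha
          obtain ⟨a0, a1, a2, a3⟩ := h
          rw [fl_ne x (by omega)] at a0 a2 a3
          refine ⟨a0, ?_, a2, a3⟩
          unfold fl at a1
          rw [if_pos rfl] at a1
          simpa using a1
        · rw [if_neg hJ] at h
          exact hJ (J_of_act h)
      unfold mv
      rw [if_neg ha, if_neg hna]
  · have hb : decide (c + 1 ≤ w) = decide (c ≤ w) := by
      congr 1
      apply propext
      omega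
    rw [hb]
    have hJiff : J c (mv (decide (c ≤ w)) w x) ↔ J c x := by
      constructor
      · intro h
        have h2 : J c (mv (decide (c ≤ w)) w (mv (decide (c ≤ w)) w x)) := by
          unfold mv at h ⊢
          by_cases ha : act (decide (c ≤ w)) x w
          · rw [if_pos ha] at h ⊢
            rw [if_pos (act_flipN.2 ha)]
            exact J_flip h hwc _ rfl (act_flipN.2 ha)
          · rw [if_neg ha] at h ⊢
            rw [if_neg ha]
            exact h
        rwa [mv_mv] at h2
      · intro h
        unfold mv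
        by_cases ha : act (decide (c ≤ w)) x w
        · rw [if_pos ha]
          exact J_flip h hwc _ rfl ha
        · rw [if_neg ha]
          exact h
    by_cases hJ : J c x
    · have hactiff : act (decide (c ≤ w)) (fl c x) w ↔ act (decide (c ≤ w)) x w := by
        by_cases hov : w < c + 4 ∧ c < w + 4
        · have n1 := no_overlap hJ hwc hov.1 hov.2 _ rfl
          have n2 := no_overlap (J_fl hJ) hwc hov.1 hov.2 _ rfl
          exact ⟨fun h => absurd h n2, fun h => absurd h n1⟩
        · unfold act
          rw [fl_ne x (by omega), fl_ne x (by omega), fl_ne x (by omega), fl_ne x (by omega)]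
      unfold Th1
      rw [if_pos (hJiff.2 hJ), if_pos hJ]
      unfold mv
      by_cases ha : act (decide (c ≤ w)) x w
      · rw [if_pos ha, if_pos (hactiff.2 ha), fl_flipN x]
      · rw [if_neg ha, if_neg (fun h => ha (hactiff.1 h))]
    · unfold Th1
      rw [if_neg (fun h => hJ (hJiff.1 h)), if_neg hJ]

/-- The composed bijection. -/
noncomputable def Th : ℕ → (ℕ → Bool) → (ℕ → Bool)
  | 0, x => x
  | k + 1, x => Th k (Th1 k x)

theorem Th_mv (k w : ℕ) (x : ℕ → Bool) : Th k (mv (decide (k ≤ w)) w x) = mv true w (Th k x) := by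
  induction k generalizing x with
  | zero => simp [Th]
  | succ k ih =>
    show Th k (Th1 k (mv (decide (k + 1 ≤ w)) w x)) = mv true w (Th k (Th1 k x))
    rw [Th1_mv, ih]

theorem Th_injective (k : ℕ) : Function.Injective (Th k) := by
  induction k with
  | zero => exact fun x y h => h
  | succ k ih =>
    intro x y h
    have h1 : Th1 k x = Th1 k y := ih h
    rw [← Th1_Th1 k x, h1, Th1_Th1]

theorem Th_tail (k : ℕ) (x : ℕ → Bool) (p : ℕ) (hp : k < p) : Th k x p = x p := by
  induction k generalizing x with
  | zero => rfl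
  | succ k ih =>
    show Th k (Th1 k x) p = x p
    rw [ih _ (by omega)]
    unfold Th1
    split_ifs
    · exact fl_ne x (by omega)
    · rfl

end Q159.KeywordCore
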