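import Pool.Agent.Q159.WordGrid

/-!
Summation of the window inequality over a finite abelian group.
-/

set_option autoImplicit false

namespace Q159.WordGrid

/-- The window inequality in terms of a function of two indices. -/
theorem window (y : ℕ → ℕ → Bool) :
    10 * (good (code4 (y 0 0) (y 0 1) (y 0 2) (y 0 3)) + good (code4 (y 1 0) (y 1 1) (y 1 2) (y 1 3)) +
        good (code4 (y 2 0) (y 2 1) (y 2 2) (y 2 3)) + good (code4 (y 3 0) (y 3 1) (y 3 2) (y 3 3)) +
        good (code4 (y 0 0) (y 1 0) (y 2 0) (y 3 0)) + good (code4 (y 0 1) (y 1 1) (y 2 1) (y 3 1)) +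
        good (code4 (y 0 2) (y 1 2) (y 2 2) (y 3 2)) + good (code4 (y 0 3) (y 1 3) (y 2 3) (y 3 3)) +
        4 * good (code4 (y 0 0) (y 1 1) (y 2 2) (y 3 3)) +
        4 * good (code4 (y 3 0) (y 2 1) (y 1 2) (y 0 3))) +
      ph (code3 (y 0 0) (y 0 1) (y 0 2) + 8 * code3 (y 1 0) (y 1 1) (y 1 2) +
        64 * code3 (y 2 0) (y 2 1) (y 2 2) + 512 * code3 (y 3 0) (y 3 1) (y 3 2)) +
      ph (code3 (y 0 0) (y 1 0) (y 2 0) + 8 * code3 (y 0 1) (y 1 1) (y 2 1) +
        64 * code3 (y 0 2) (y 1 2) (y 2 2) + 512 * code3 (y 0 3) (y 1 3) (y 2 3)) ≤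
    64 + ph (code3 (y 0 1) (y 0 2) (y 0 3) + 8 * code3 (y 1 1) (y 1 2) (y 1 3) +
        64 * code3 (y 2 1) (y 2 2) (y 2 3) + 512 * code3 (y 3 1) (y 3 2) (y 3 3)) +
      ph (code3 (y 1 0) (y 2 0) (y 3 0) + 8 * code3 (y 1 1) (y 2 1) (y 3 1) +
        64 * code3 (y 1 2) (y 2 2) (y 3 2) + 512 * code3 (y 1 3) (y 2 3) (y 3 3)) :=
  window_aux ph good (fun _ _ _ _ h0 h1 h2 h3 => leaf_all h0 h1 h2 h3) _ _ _ _ _ _ _ _ _ _ _ _ _
    _ _ _

section Sums

variable {G : Type*} [Fintype G] [AddCommGroup G]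

/-- the code of four cells in direction `v` -/
def line (x : G → Bool) (v p : G) : ℕ := code4 (x p) (x (p + v)) (x (p + 2 • v)) (x (p + 3 • v))

/-- number of good segments in direction `v` -/
def S (P : ℕ → ℕ) (x : G → Bool) (v : G) : ℕ := ∑ p, P (line x v p)

theorem sum_shift (F : G → ℕ) (a : G) : ∑ p, F (p + a) = ∑ p, F p :=
  Fintype.sum_equiv (Equiv.addRight a) _ _ (fun _ => rfl)

/-- cells of the window at `p` -/
def Y (x : G → Bool) (e f p : G) (i j : ℕ) : Bool := x (p + i • e + j • f)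

theorem Y_add_f (x : G → Bool) (e f p : G) (i j : ℕ) : Y x e f (p + f) i j = Y x e f p i (j + 1) := by
  unfold Y
  rw [succ_nsmul]
  congr 1
  abel

theorem Y_add_e (x : G → Bool) (e f p : G) (i j : ℕ) : Y x e f (p + e) i j = Y x e f p (i + 1) j := by
  unfold Y
  rw [succ_nsmul]
  congr 1
  abel

theorem row (x : G → Bool) (e f p : G) (i : ℕ) :
    code4 (Y x e f p i 0) (Y x e f p i 1) (Y x e f p i 2) (Y x e f p i 3) = line x f (p + i • e) := by
  unfold Y line
  rw [zero_nsmul, add_zero, one_nsmul]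

theorem col (x : G → Bool) (e f p : G) (j : ℕ) :
    code4 (Y x e f p 0 j) (Y x e f p 1 j) (Y x e f p 2 j) (Y x e f p 3 j) = line x e (p + j • f) := by
  unfold Y line
  rw [zero_nsmul, add_zero, one_nsmul]
  have h1 : p + e + j • f = p + j • f + e := by abel
  have h2 : p + 2 • e + j • f = p + j • f + 2 • e := by abel
  have h3 : p + 3 • e + j • f = p + j • f + 3 • e := by abel
  rw [h1, h2, h3]

theorem diag (x : G → Bool) (e f p : G) :
    code4 (Y x e f p 0 0) (Y x e f p 1 1) (Y x e f p 2 2) (Y x e f p 3 3) = line x (e + f) p := by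
  unfold Y line
  have h0 : p + 0 • e + 0 • f = p := by simp
  have h1 : p + 1 • e + 1 • f = p + (e + f) := by rw [one_nsmul, one_nsmul]; abel
  have h2 : p + 2 • e + 2 • f = p + 2 • (e + f) := by rw [smul_add]; abel
  have h3 : p + 3 • e + 3 • f = p + 3 • (e + f) := by rw [smul_add]; abel
  rw [h0, h1, h2, h3]

theorem anti (x : G → Bool) (e f p : G) :
    code4 (Y x e f p 3 0) (Y x e f p 2 1) (Y x e f p 1 2) (Y x e f p 0 3) =
      line x (f - e) (p + 3 • e) := by
  unfold Y line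
  have h0 : p + 3 • e + 0 • f = p + 3 • e := by simp
  have h1 : p + 2 • e + 1 • f = p + 3 • e + (f - e) := by
    simp only [succ_nsmul, zero_nsmul]; abel
  have h2 : p + 1 • e + 2 • f = p + 3 • e + 2 • (f - e) := by
    simp only [succ_nsmul, zero_nsmul]; abel
  have h3 : p + 0 • e + 3 • f = p + 3 • e + 3 • (f - e) := by
    simp only [succ_nsmul, zero_nsmul]; abel
  rw [h0, h1, h2, h3]

/-- horizontal potential at `p` -/
def potL (P : ℕ → ℕ) (y : ℕ → ℕ → Bool) : ℕ :=
  P (code3 (y 0 0) (y 0 1) (y 0 2) + 8 * code3 (y 1 0) (y 1 1) (y 1 2) +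
        64 * code3 (y 2 0) (y 2 1) (y 2 2) + 512 * code3 (y 3 0) (y 3 1) (y 3 2))

/-- vertical potential at `p` -/
def potT (P : ℕ → ℕ) (y : ℕ → ℕ → Bool) : ℕ :=
  P (code3 (y 0 0) (y 1 0) (y 2 0) + 8 * code3 (y 0 1) (y 1 1) (y 2 1) +
        64 * code3 (y 0 2) (y 1 2) (y 2 2) + 512 * code3 (y 0 3) (y 1 3) (y 2 3))

theorem at_point (P g : ℕ → ℕ) (hw : ∀ y : ℕ → ℕ → Bool,
    10 * (g (code4 (y 0 0) (y 0 1) (y 0 2) (y 0 3)) + g (code4 (y 1 0) (y 1 1) (y 1 2) (y 1 3)) +
        g (code4 (y 2 0) (y 2 1) (y 2 2) (y 2 3)) + g (code4 (y 3 0) (y 3 1) (y 3 2) (y 3 3)) +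
        g (code4 (y 0 0) (y 1 0) (y 2 0) (y 3 0)) + g (code4 (y 0 1) (y 1 1) (y 2 1) (y 3 1)) +
        g (code4 (y 0 2) (y 1 2) (y 2 2) (y 3 2)) + g (code4 (y 0 3) (y 1 3) (y 2 3) (y 3 3)) +
        4 * g (code4 (y 0 0) (y 1 1) (y 2 2) (y 3 3)) +
        4 * g (code4 (y 3 0) (y 2 1) (y 1 2) (y 0 3))) +
      potL P y + potT P y ≤
    64 + potL P (fun i j => y i (j + 1)) + potT P (fun i j => y (i + 1) j))
    (x : G → Bool) (e f p : G) :
    10 * (g (line x f (p + 0 • e)) + g (line x f (p + 1 • e)) + g (line x f (p + 2 • e)) +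
        g (line x f (p + 3 • e)) +
        g (line x e (p + 0 • f)) + g (line x e (p + 1 • f)) + g (line x e (p + 2 • f)) +
        g (line x e (p + 3 • f)) + 4 * g (line x (e + f) p) +
        4 * g (line x (f - e) (p + 3 • e))) +
      potL P (Y x e f p) + potT P (Y x e f p) ≤
    64 + potL P (Y x e f (p + f)) + potT P (Y x e f (p + e)) := by
  have h := hw (Y x e f p)
  rw [row, row, row, row, col, col, col, col, diag, anti] at h
  have h1 : (fun i j => Y x e f p i (j + 1)) = Y x e f (p + f) := by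
    funext i j; rw [Y_add_f]
  have h2 : (fun i j => Y x e f p (i + 1) j) = Y x e f (p + e) := by
    funext i j; rw [Y_add_e]
  rw [h1, h2] at h
  exact h

theorem group_bound_aux (P g : ℕ → ℕ) (hw : ∀ y : ℕ → ℕ → Bool,
    10 * (g (code4 (y 0 0) (y 0 1) (y 0 2) (y 0 3)) + g (code4 (y 1 0) (y 1 1) (y 1 2) (y 1 3)) +
        g (code4 (y 2 0) (y 2 1) (y 2 2) (y 2 3)) + g (code4 (y 3 0) (y 3 1) (y 3 2) (y 3 3)) +
        g (code4 (y 0 0) (y 1 0) (y 2 0) (y 3 0)) + g (code4 (y 0 1) (y 1 1) (y 2 1) (y 3 1)) +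
        g (code4 (y 0 2) (y 1 2) (y 2 2) (y 3 2)) + g (code4 (y 0 3) (y 1 3) (y 2 3) (y 3 3)) +
        4 * g (code4 (y 0 0) (y 1 1) (y 2 2) (y 3 3)) +
        4 * g (code4 (y 3 0) (y 2 1) (y 1 2) (y 0 3))) +
      potL P y + potT P y ≤
    64 + potL P (fun i j => y i (j + 1)) + potT P (fun i j => y (i + 1) j))
    (x : G → Bool) (e f : G) :
    5 * (S g x f + S g x e + S g x (e + f) + S g x (f - e)) ≤ 8 * Fintype.card G := by
  have h := Finset.sum_le_sum (s := Finset.univ) (fun p _ => at_point P g hw x e f p)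
  simp only [Finset.sum_add_distrib, ← Finset.mul_sum] at h
  have s1 : ∀ a : G, ∑ p, g (line x f (p + a)) = S g x f := fun a =>
    sum_shift (fun p => g (line x f p)) a
  have s2 : ∀ a : G, ∑ p, g (line x e (p + a)) = S g x e := fun a =>
    sum_shift (fun p => g (line x e p)) a
  have s3 : ∑ p, g (line x (e + f) p) = S g x (e + f) := rfl
  have s4 : ∑ p, g (line x (f - e) (p + 3 • e)) = S g x (f - e) :=
    sum_shift (fun p => g (line x (f - e) p)) (3 • e)
  have s5 : ∑ p, potL P (Y x e f (p + f)) = ∑ p, potL P (Y x e f p) :=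
    sum_shift (fun p => potL P (Y x e f p)) f
  have s6 : ∑ p, potT P (Y x e f (p + e)) = ∑ p, potT P (Y x e f p) :=
    sum_shift (fun p => potT P (Y x e f p)) e
  simp only [s1, s2, s3, s4, s5, s6, Finset.sum_const, Finset.card_univ, smul_eq_mul] at h
  omega

theorem group_bound (x : G → Bool) (e f : G) :
    5 * (S good x f + S good x e + S good x (e + f) + S good x (f - e)) ≤ 8 * Fintype.card G :=
  group_bound_aux ph good window x e f

/-- number of appearances of `BAAA` in direction `v` -/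
def A (x : G → Bool) (v : G) : ℕ :=
  ∑ p, if (x p = true ∧ x (p + v) = false ∧ x (p + 2 • v) = false ∧ x (p + 3 • v) = false) then 1
    else 0

theorem good_code (a b c d : Bool) : good (code4 a b c d) =
    (if (a = true ∧ b = false ∧ c = false ∧ d = false) then 1 else 0) +
    (if (d = true ∧ c = false ∧ b = false ∧ a = false) then 1 else 0) := by
  cases a <;> cases b <;> cases c <;> cases d <;> decide

theorem S_eq (x : G → Bool) (v : G) : S good x v = A x v + A x (-v) := by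
  unfold S A line
  simp only [good_code, Finset.sum_add_distrib]
  congr 1
  rw [← sum_shift (fun p => if (x p = true ∧ x (p + -v) = false ∧ x (p + 2 • -v) = false ∧
    x (p + 3 • -v) = false) then 1 else 0) (3 • v)]
  apply Finset.sum_congr rfl
  intro p _
  have h1 : p + 3 • v + -v = p + 2 • v := by simp only [succ_nsmul, zero_nsmul]; abel
  have h2 : p + 3 • v + 2 • -v = p + v := by simp only [succ_nsmul, zero_nsmul]; abel
  have h3 : p + 3 • v + 3 • -v = p := by simp only [succ_nsmul, zero_nsmul]; abel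
  rw [h1, h2, h3]

theorem eight_bound (x : G → Bool) (e f : G) :
    5 * (A x e + A x (-e) + A x f + A x (-f) + A x (e + f) + A x (-(e + f)) + A x (f - e) +
      A x (-(f - e))) ≤ 8 * Fintype.card G := by
  have := group_bound x e f
  rw [S_eq, S_eq, S_eq, S_eq] at this
  omega

end Sums

end Q159.WordGrid
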