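import Mathlib

/-!
Helper file for `MP_b74c76_co`: the parity of the Zeckendorf sum of digits, its desubstitution and
an upper bound for repeated blocks with different successors.
-/

set_option autoImplicit false

namespace Q159.ZeckParity

open Nat Real

/-- parity of the number of Zeckendorf summands -/
def s (n : ℕ) : Bool := decide ((Nat.zeckendorf n).length % 2 = 1)

/-- the last Zeckendorf digit -/
def e (n : ℕ) : Bool := decide (2 ∈ Nat.zeckendorf n)

theorem greatestFib_eq {k r : ℕ} (hk : 3 ≤ k) (hr : r < fib (k - 1)) :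
    Nat.greatestFib (fib k + r) = k := by
  apply le_antisymm
  · have : Nat.greatestFib (fib k + r) < k + 1 := by
      rw [Nat.greatestFib_lt]
      obtain ⟨m, rfl⟩ : ∃ m, k = m + 1 := ⟨k - 1, by omega⟩
      rw [Nat.fib_add_two]
      simp only [Nat.add_sub_cancel] at hr
      omega
    omega
  · rw [Nat.le_greatestFib]
    omega

theorem zeck_add {k r : ℕ} (hk : 3 ≤ k) (hr : r < fib (k - 1)) :
    Nat.zeckendorf (fib k + r) = k :: Nat.zeckendorf r := by
  have hpos : 0 < fib k := Nat.fib_pos.2 (by omega)
  rw [Nat.zeckendorf_of_pos (by omega), greatestFib_eq hk hr]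
  congr 2
  omega

theorem s_add {k r : ℕ} (hk : 3 ≤ k) (hr : r < fib (k - 1)) : s (fib k + r) = !(s r) := by
  unfold s
  rw [zeck_add hk hr, List.length_cons]
  rcases Nat.mod_two_eq_zero_or_one (Nat.zeckendorf r).length with h | h
  · have : ((Nat.zeckendorf r).length + 1) % 2 = 1 := by omega
    simp [h, this]
  · have : ((Nat.zeckendorf r).length + 1) % 2 = 0 := by omega
    simp [h, this]

theorem e_add {k r : ℕ} (hk : 3 ≤ k) (hr : r < fib (k - 1)) : e (fib k + r) = e r := by
  unfold e
  rw [zeck_add hk hr]
  have : ¬ (2 = k) := by omega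
  simp [this]

theorem zeck_one : Nat.zeckendorf 1 = [2] := by
  have := Nat.zeckendorf_sum_fib (l := [2]) (by simp [List.IsZeckendorfRep])
  simpa using this

theorem s_zero : s 0 = false := by simp [s]
theorem e_zero : e 0 = false := by simp [e]
theorem s_one : s 1 = true := by unfold s; rw [zeck_one]; rfl
theorem e_one : e 1 = true := by unfold e; rw [zeck_one]; rfl

/-- the Fibonacci shift -/
def G : ℕ → ℕ
  | 0 => 0
  | m + 1 => G m + (if e m then 1 else 2)

theorem G_zero : G 0 = 0 := rfl
theorem G_succ (m : ℕ) : G (m + 1) = G m + (if e m then 1 else 2) := rfl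
theorem G_succ_t {m : ℕ} (h : e m = true) : G (m + 1) = G m + 1 := by simp [G_succ, h]
theorem G_succ_f {m : ℕ} (h : e m = false) : G (m + 1) = G m + 2 := by simp [G_succ, h]

theorem G_lt_succ (m : ℕ) : G m < G (m + 1) := by
  rw [G_succ]; split_ifs <;> omega

theorem G_mono : StrictMono G := strictMono_nat_of_lt_succ G_lt_succ

theorem le_G (m : ℕ) : m ≤ G m := G_mono.le_apply

theorem G_one : G 1 = 2 := by rw [show (1 : ℕ) = 0 + 1 from rfl, G_succ_f e_zero, G_zero]

/-- every number at least two is `fib k + r` -/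
theorem decomp {n : ℕ} (hn : 2 ≤ n) : ∃ k r, 3 ≤ k ∧ r < fib (k - 1) ∧ n = fib k + r := by
  have h1 := Nat.fib_greatestFib_le n
  have h2 := Nat.lt_fib_greatestFib_add_one n
  have h3 : 3 ≤ Nat.greatestFib n := by rw [Nat.le_greatestFib]; exact hn
  obtain ⟨m, hm⟩ : ∃ m, Nat.greatestFib n = m + 1 := ⟨Nat.greatestFib n - 1, by omega⟩
  rw [hm] at h1 h2 h3
  rw [Nat.fib_add_two] at h2
  refine ⟨m + 1, n - fib (m + 1), by omega, ?_, by omega⟩
  simp only [Nat.add_sub_cancel]
  omega

theorem G_fib_add (k : ℕ) (hk : 3 ≤ k)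
    (hG : G (fib k) = fib (k + 1)) (r : ℕ) (hr : r ≤ fib (k - 1)) :
    G (fib k + r) = fib (k + 1) + G r := by
  induction r with
  | zero => simpa [G_zero] using hG
  | succ r ih =>
    rw [← add_assoc, G_succ, ih (by omega), e_add hk (by omega), G_succ]
    ring

theorem G_fib : ∀ k, 2 ≤ k → G (fib k) = fib (k + 1) ∧ G (fib (k + 1)) = fib (k + 2) := by
  intro k hk
  induction k, hk using Nat.le_induction with
  | base =>
    constructor
    · show G 1 = 2
      exact G_one
    · show G 2 = 3
      rw [show (2 : ℕ) = 1 + 1 from rfl, G_succ_t e_one, G_one]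
  | succ k hk ih =>
    refine ⟨ih.2, ?_⟩
    have h := G_fib_add (k + 1) (by omega) ih.2 (fib k) (by simp)
    rw [ih.1] at h
    rw [show k + 1 + 1 = k + 2 from rfl, Nat.fib_add_two (n := k), add_comm (fib k), h,
      show k + 2 + 1 = k + 1 + 2 from rfl, Nat.fib_add_two (n := k + 1)]
    ring

theorem G_add {k r : ℕ} (hk : 3 ≤ k) (hr : r ≤ fib (k - 1)) :
    G (fib k + r) = fib (k + 1) + G r :=
  G_fib_add k hk (G_fib k (by omega)).1 r hr

theorem G_lt_fib {k r : ℕ} (hk : 3 ≤ k) (hr : r < fib (k - 1)) : G r < fib k := by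
  have h := (G_fib (k - 1) (by omega)).1
  rw [show k - 1 + 1 = k by omega] at h
  rw [← h]
  exact G_mono hr

theorem G_lt_fib' {k r : ℕ} (hk : 3 ≤ k) (hr : r < fib (k - 1)) (he : e r = false) :
    G r + 1 < fib k := by
  have h := (G_fib (k - 1) (by omega)).1
  rw [show k - 1 + 1 = k by omega] at h
  rw [← h]
  have := G_mono.monotone (show r + 1 ≤ fib (k - 1) by omega)
  rw [G_succ_f he] at this
  omega

theorem s_two : s 2 = true := by
  have := s_add (k := 3) (r := 0) (by omega) (by decide)
  rw [s_zero] at this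
  exact this

theorem e_two : e 2 = false := by
  have := e_add (k := 3) (r := 0) (by omega) (by decide)
  rw [e_zero] at this
  exact this

theorem y_G (m : ℕ) : s (G m) = s m ∧ e (G m) = false ∧
    (e m = false → s (G m + 1) = !(s m) ∧ e (G m + 1) = true) := by
  induction m using Nat.strong_induction_on with
  | _ m ih =>
    by_cases h0 : m = 0
    · subst h0
      simp [G_zero, s_zero, e_zero, s_one, e_one]
    by_cases h1 : m = 1
    · subst h1
      simp [G_one, s_one, e_one, s_two, e_two]
    obtain ⟨k, r, hk, hr, rfl⟩ := decomp (show 2 ≤ m by omega)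
    have hpos : 0 < fib k := Nat.fib_pos.2 (by omega)
    obtain ⟨i1, i2, i3⟩ := ih r (by omega)
    have a1 := G_lt_fib hk hr
    rw [G_add hk hr.le]
    refine ⟨?_, ?_, ?_⟩
    · rw [s_add (by omega) (by simpa using a1), i1, s_add hk hr]
    · rw [e_add (by omega) (by simpa using a1), i2]
    · intro h
      rw [e_add hk hr] at h
      have a2 := G_lt_fib' hk hr h
      obtain ⟨j1, j2⟩ := i3 h
      rw [add_assoc, s_add (by omega) (by simpa using a2), e_add (by omega) (by simpa using a2),
        s_add hk hr, j1, j2]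
      exact ⟨rfl, rfl⟩

theorem s_G (m : ℕ) : s (G m) = s m := (y_G m).1
theorem e_G (m : ℕ) : e (G m) = false := (y_G m).2.1
theorem s_G1 {m : ℕ} (h : e m = false) : s (G m + 1) = !(s m) := ((y_G m).2.2 h).1
theorem e_G1 {m : ℕ} (h : e m = false) : e (G m + 1) = true := ((y_G m).2.2 h).2
theorem e_G1' {m : ℕ} (h : e m = true) : e (G m + 1) = false := by
  rw [← G_succ_t h]; exact e_G _

theorem cover (n : ℕ) : ∃ m, n = G m ∨ (n = G m + 1 ∧ e m = false) := by
  induction n with
  | zero => exact ⟨0, Or.inl rfl⟩
  | succ n ih =>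
    obtain ⟨m, h | ⟨h, h'⟩⟩ := ih
    · by_cases c : e m = false
      · exact ⟨m, Or.inr ⟨by omega, c⟩⟩
      · refine ⟨m + 1, Or.inl ?_⟩
        rw [G_succ_t (by simpa using c)]; omega
    · refine ⟨m + 1, Or.inl ?_⟩
      rw [G_succ_f h']; omega

theorem e_false_iff (n : ℕ) : e n = false ↔ ∃ m, n = G m := by
  constructor
  · intro h
    obtain ⟨m, h1 | ⟨h1, h2⟩⟩ := cover n
    · exact ⟨m, h1⟩
    · rw [h1, e_G1 h2] at h; cases h
  · rintro ⟨m, rfl⟩; exact e_G m

theorem e_true_pred {n : ℕ} (h : e n = true) : ∃ m, n = G m + 1 ∧ e m = false := by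
  obtain ⟨m, h1 | ⟨h1, h2⟩⟩ := cover n
  · rw [h1, e_G] at h; cases h
  · exact ⟨m, h1, h2⟩

/-- Repeated block of length `k` at positions `i < j` with different successors. -/
def P (i j k : ℕ) : Prop :=
  i < j ∧ (∀ t < k, s (i + t) = s (j + t) ∧ e (i + t) = e (j + t)) ∧
    ¬ (s (i + k) = s (j + k) ∧ e (i + k) = e (j + k))

theorem P.left {i j k : ℕ} (h : P i j k) : ∃ i' j' k', P i' j' k' ∧ k ≤ k' ∧ j' + k' = j + k ∧
    (k = 0 ∨ (e i' = false ∧ e j' = false)) := by
  by_cases hk : k = 0
  · exact ⟨i, j, k, h, le_rfl, rfl, Or.inl hk⟩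
  · have h0 := h.2.1 0 (by omega)
    rw [add_zero, add_zero] at h0
    by_cases he : e i = false
    · exact ⟨i, j, k, h, le_rfl, rfl, Or.inr ⟨he, by rw [← h0.2, he]⟩⟩
    · have he' : e i = true := by simpa using he
      obtain ⟨a, ha, ha'⟩ := e_true_pred he'
      obtain ⟨b, hb, hb'⟩ := e_true_pred (n := j) (by rw [← h0.2, he'])
      subst ha
      subst hb
      refine ⟨G a, G b, k + 1, ⟨by have := h.1; omega, ?_, ?_⟩, by omega, by omega,
        Or.inr ⟨e_G a, e_G b⟩⟩
      · intro t ht
        by_cases t0 : t = 0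
        · subst t0
          rw [add_zero, add_zero, e_G, e_G, s_G, s_G]
          refine ⟨?_, rfl⟩
          have := h0.1
          rw [s_G1 ha', s_G1 hb'] at this
          simpa using this
        · have := h.2.1 (t - 1) (by omega)
          rwa [show G a + 1 + (t - 1) = G a + t by omega,
            show G b + 1 + (t - 1) = G b + t by omega] at this
      · have := h.2.2
        rwa [show G a + 1 + k = G a + (k + 1) by omega,
          show G b + 1 + k = G b + (k + 1) by omega] at this

/-- agreement of `T` letters gives agreement of the images -/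
theorem sync {a b T : ℕ} (h : ∀ t < T, s (a + t) = s (b + t) ∧ e (a + t) = e (b + t)) :
    G (a + T) + G b = G (b + T) + G a ∧
      ∀ x, x + G a < G (a + T) → s (G a + x) = s (G b + x) ∧ e (G a + x) = e (G b + x) := by
  induction T with
  | zero => exact ⟨by simp [add_comm], fun x hx => by simp at hx⟩
  | succ T ih =>
    obtain ⟨i1, i2⟩ := ih (fun t ht => h t (by omega))
    obtain ⟨h1, h2⟩ := h T (by omega)
    have m1 : G a ≤ G (a + T) := G_mono.monotone (by omega)
    have m2 : G b ≤ G (b + T) := G_mono.monotone (by omega)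
    by_cases c : e (a + T) = false
    · have c' : e (b + T) = false := by rw [← h2, c]
      rw [← add_assoc, ← add_assoc, G_succ_f c, G_succ_f c']
      refine ⟨by omega, ?_⟩
      intro x hx
      by_cases d : x + G a < G (a + T)
      · exact i2 x d
      · have : x + G a = G (a + T) ∨ x + G a = G (a + T) + 1 := by omega
        rcases this with q | q
        · have q' : G b + x = G (b + T) := by omega
          rw [q', add_comm (G a), q, s_G, s_G, e_G, e_G]
          exact ⟨h1, rfl⟩
        · have q' : G b + x = G (b + T) + 1 := by omega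
          rw [q', add_comm (G a), q, s_G1 c, s_G1 c', e_G1 c, e_G1 c', h1]
          exact ⟨rfl, rfl⟩
    · have c : e (a + T) = true := by simpa using c
      have c' : e (b + T) = true := by rw [← h2, c]
      rw [← add_assoc, ← add_assoc, G_succ_t c, G_succ_t c']
      refine ⟨by omega, ?_⟩
      intro x hx
      by_cases d : x + G a < G (a + T)
      · exact i2 x d
      · have q : x + G a = G (a + T) := by omega
        have q' : G b + x = G (b + T) := by omega
        rw [q', add_comm (G a), q, s_G, s_G, e_G, e_G]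
        exact ⟨h1, rfl⟩

/-- One step of desubstitution. -/
theorem P.desub {i j k N : ℕ} (h : P i j k) (hk : 0 < k) (hN : j + k < G N) :
    ∃ i' j' k', P i' j' k' ∧ j' + k' < N ∧ k + G i' ≤ G (i' + k') + 1 := by
  obtain ⟨i1, j1, k1, hP, hkk, hjk, hc⟩ := h.left
  obtain ⟨ei, ej⟩ : e i1 = false ∧ e j1 = false := by
    rcases hc with hc | hc
    · omega
    · exact hc
  obtain ⟨a, rfl⟩ := (e_false_iff _).1 ei
  obtain ⟨b, rfl⟩ := (e_false_iff _).1 ej
  have hab : a < b := G_mono.lt_iff_lt.1 hP.1
  have hex : ∃ T, ¬ (s (a + T) = s (b + T) ∧ e (a + T) = e (b + T)) := by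
    by_contra hcon
    push Not at hcon
    have := (sync (a := a) (b := b) (T := a + k1 + 1) (fun t _ => hcon t)).2 k1 (by
      have := le_G (a + (a + k1 + 1))
      have h2 : G a + (k1 + 1) ≤ G (a + (k1 + 1)) := by
        clear this
        generalize k1 + 1 = z
        induction z with
        | zero => simp
        | succ z ih =>
          have := G_lt_succ (a + z)
          rw [← add_assoc, ← add_assoc]
          omega
      have h3 := G_mono.monotone (show a + (k1 + 1) ≤ a + (a + k1 + 1) by omega)
      omega)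
    exact hP.2.2 this
  classical
  obtain ⟨T, hT, hmin⟩ : ∃ T, ¬ (s (a + T) = s (b + T) ∧ e (a + T) = e (b + T)) ∧
      ∀ t < T, s (a + t) = s (b + t) ∧ e (a + t) = e (b + t) := by
    refine ⟨Nat.find hex, Nat.find_spec hex, fun t ht => ?_⟩
    have := Nat.find_min hex ht
    simpa using this
  obtain ⟨sy1, sy2⟩ := sync hmin
  have m1 : G a ≤ G (a + T) := G_mono.monotone (by omega)
  have m2 : G b ≤ G (b + T) := G_mono.monotone (by omega)
  have hk1 : G (a + T) ≤ k1 + G a := by
    by_contra hcon
    exact hP.2.2 (sy2 k1 (by omega))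
  refine ⟨a, b, T, ⟨hab, hmin, hT⟩, ?_, ?_⟩
  · have : G (b + T) < G N := by omega
    exact G_mono.lt_iff_lt.1 this
  · by_contra hcon
    push Not at hcon
    obtain ⟨D, hD⟩ : ∃ D, G (a + T) = G a + D := ⟨G (a + T) - G a, by omega⟩
    have hD' : G (b + T) = G b + D := by omega
    have q0 := hP.2.1 D (by omega)
    have q1 := hP.2.1 (D + 1) (by omega)
    rw [← hD, ← hD', s_G, s_G] at q0
    rw [← add_assoc, ← add_assoc, ← hD, ← hD'] at q1
    apply hT
    refine ⟨q0.1, ?_⟩
    rcases ha : e (a + T) <;> rcases hb : e (b + T)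
    · rfl
    · rw [e_G1 ha, e_G1' hb] at q1
      exact absurd q1.2 (by simp)
    · rw [e_G1' ha, e_G1 hb] at q1
      exact absurd q1.2 (by simp)
    · rfl

/-- discrepancy bounds for the Fibonacci shift -/
theorem G_bd (k : ℕ) (hk : 2 ≤ k) : ∀ n < fib k,
    (G n : ℝ) - goldenRatio * n ≤ -goldenConj - (-goldenConj) ^ k ∧
      -goldenConj ^ 2 + (-goldenConj) ^ k ≤ (G n : ℝ) - goldenRatio * n := by
  have hp : goldenRatio = 1 - goldenConj := by linarith [goldenRatio_add_goldenConj]
  have hsq := goldenConj_sq
  have hneg := goldenConj_neg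
  have hm1 := neg_one_lt_goldenConj
  induction k using Nat.strong_induction_on with
  | _ k ih =>
    by_cases h2 : k = 2
    · subst h2
      intro n hn
      have : n = 0 := by simpa using hn
      subst this
      simp only [G_zero, Nat.cast_zero, mul_zero, sub_zero]
      constructor
      · rw [neg_sq]; nlinarith
      · rw [neg_sq]; simp
    by_cases h3 : k = 3
    · subst h3
      intro n hn
      have hn' : n < 2 := hn
      have c3 : (-goldenConj) ^ 3 = -(goldenConj ^ 2 * goldenConj) := by ring
      rw [c3, hsq]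
      have c4 : (goldenConj + 1) * goldenConj = 2 * goldenConj + 1 := by
        rw [add_mul, one_mul, ← sq, hsq]; ring
      rw [c4]
      have hhalf : goldenConj < -1/2 := by
        by_contra hcon
        push Not at hcon
        nlinarith
      interval_cases n
      · simp only [G_zero, Nat.cast_zero, mul_zero, sub_zero]
        constructor <;> nlinarith
      · rw [G_one, hp]
        push_cast
        constructor <;> nlinarith
    · intro n hn
      obtain ⟨m, rfl⟩ : ∃ m, k = m + 1 := ⟨k - 1, by omega⟩
      have hm : 3 ≤ m := by omega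
      have hpw : (-goldenConj) ^ (m + 1) ≤ (-goldenConj) ^ m := by
        apply pow_le_pow_of_le_one <;> linarith
      by_cases c : n < fib m
      · have := ih m (by omega) (by omega) n c
        constructor <;> linarith [this.1, this.2]
      · obtain ⟨r, rfl⟩ : ∃ r, n = fib m + r := ⟨n - fib m, by omega⟩
        obtain ⟨q, rfl⟩ : ∃ q, m = q + 1 := ⟨m - 1, by omega⟩
        rw [show q + 1 + 1 = q + 2 from rfl, Nat.fib_add_two] at hn
        have hr : r < fib q := by omega
        have hi := ih q (by omega) (by omega) r hr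
        rw [G_add (by omega) (by simpa using hr.le)]
        push_cast
        have hf := fib_succ_sub_goldenRatio_mul_fib (q + 1)
        have hx : (-goldenConj) ^ (q + 1 + 1) = (-goldenConj) ^ q * goldenConj ^ 2 := by ring
        have hx1 : (-goldenConj) ^ (q + 1) = (-goldenConj) ^ q * (-goldenConj) := by ring
        have hq0 : 0 < (-goldenConj) ^ q := by apply pow_pos; linarith
        have key : ((fib (q + 1 + 1) : ℝ) + G r) - goldenRatio * ((fib (q + 1) : ℝ) + r) =
            goldenConj ^ (q + 1) + ((G r : ℝ) - goldenRatio * r) := by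
          rw [← hf]; ring
        rw [key]
        have habs : goldenConj ^ (q + 1) = (-goldenConj) ^ (q + 1) ∨
            goldenConj ^ (q + 1) = -(-goldenConj) ^ (q + 1) := by
          rcases Nat.even_or_odd (q + 1) with h | h
          · left; rw [h.neg_pow]
          · right; rw [h.neg_pow, neg_neg]
        rw [hx]
        rw [hx1] at habs
        rw [hsq]
        rcases habs with h | h <;> rw [h] <;> constructor <;> nlinarith [hi.1, hi.2]

theorem G_bounds (n : ℕ) : (G n : ℝ) - goldenRatio * n < -goldenConj ∧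
      -goldenConj ^ 2 < (G n : ℝ) - goldenRatio * n := by
  have hneg := goldenConj_neg
  have h := G_bd (n + 3) (by omega) n (by
    have := Nat.le_fib_add_one (n + 3)
    omega)
  have : 0 < (-goldenConj) ^ (n + 3) := by apply pow_pos; linarith
  constructor <;> linarith [h.1, h.2]

theorem G_diff (i k : ℕ) : (G (i + k) : ℝ) - G i < goldenRatio * k + 1 := by
  have h1 := (G_bounds (i + k)).1
  have h2 := (G_bounds i).2
  have hsq := goldenConj_sq
  push_cast at h1
  nlinarith

/-- the pair of parity and last digit -/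
def y (n : ℕ) : Bool × Bool := (s n, e n)

/-- blocks of `y` -/
def yv (a T : ℕ) : List (Bool × Bool) := (List.range T).map (fun t => y (a + t))

theorem yv_length (a T : ℕ) : (yv a T).length = T := by simp [yv]

theorem yv_append (a S T : ℕ) : yv a (S + T) = yv a S ++ yv (a + S) T := by
  unfold yv
  rw [List.range_add, List.map_append, List.map_map]
  congr 1
  apply List.map_congr_left
  intro t _
  simp [add_assoc]

theorem yv_getElem? (a T : ℕ) {t : ℕ} (ht : t < T) : (yv a T)[t]? = some (y (a + t)) := by
  simp [yv, List.getElem?_map, List.getElem?_range ht]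

theorem yv_take (a : ℕ) {S T : ℕ} (h : S ≤ T) : (yv a T).take S = yv a S := by
  obtain ⟨R, rfl⟩ : ∃ R, T = S + R := ⟨T - S, by omega⟩
  rw [yv_append]
  have := yv_length a S
  rw [List.take_append_of_le_length (by omega), List.take_of_length_le (by omega)]

theorem yv_drop_one (a : ℕ) {T : ℕ} : (yv a (1 + T)).drop 1 = yv (a + 1) T := by
  rw [yv_append]
  simp [yv]

/-- the morphism -/
def g (x : Bool × Bool) : List (Bool × Bool) :=
  if x.2 then [(x.1, false)] else [(x.1, false), (!x.1, true)]

theorem g_len (x : Bool × Bool) : 1 ≤ (g x).length := by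
  unfold g; split_ifs <;> simp

theorem img_one (n : ℕ) : yv (G n) (G (n + 1) - G n) = g (y n) := by
  rcases h : e n
  · rw [G_succ_f h, Nat.add_sub_cancel_left]
    simp [yv, List.range_succ, y, g, h, s_G, e_G, s_G1 h, e_G1 h]
  · rw [G_succ_t h, Nat.add_sub_cancel_left]
    simp [yv, List.range_succ, y, g, h, s_G, e_G]

theorem img (m T : ℕ) : yv (G m) (G (m + T) - G m) = (yv m T).flatMap g := by
  induction T with
  | zero => simp [yv]
  | succ T ih =>
    have h1 := G_lt_succ (m + T)
    have h2 := G_mono.monotone (show m ≤ m + T by omega)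
    rw [← add_assoc, show G (m + T + 1) - G m = (G (m + T) - G m) + (G (m + T + 1) - G (m + T)) by
      omega, yv_append, ih, show G m + (G (m + T) - G m) = G (m + T) by omega, img_one,
      yv_append, List.flatMap_append]
    congr 1
    simp [yv]

/-- letter codes -/
def dec (n : ℕ) : Bool × Bool :=
  match n with
  | 0 => (false, false)
  | 1 => (true, true)
  | 2 => (true, false)
  | _ => (false, true)

/-- all blocks of length five -/
def F5 : List (List (Bool × Bool)) :=
  ([[0, 0, 1, 0, 1], [0, 0, 1, 2, 2], [0, 0, 1, 2, 3], [0, 1, 0, 1, 2], [0, 1, 2, 0, 1], [0, 1,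
    2, 2, 3], [0, 1, 2, 3, 0], [0, 2, 3, 0, 0], [1, 0, 1, 2, 0], [1, 0, 1, 2, 2], [1, 2, 0, 1,
    2], [1, 2, 2, 3, 0], [1, 2, 2, 3, 2], [1, 2, 3, 0, 0], [2, 0, 1, 2, 2], [2, 2, 3, 0, 0], [2,
    2, 3, 0, 1], [2, 2, 3, 2, 3], [2, 3, 0, 0, 1], [2, 3, 0, 1, 2], [2, 3, 0, 2, 3], [2, 3, 2,
    3, 0], [3, 0, 0, 1, 0], [3, 0, 0, 1, 2], [3, 0, 1, 2, 2], [3, 0, 2, 3, 0], [3, 2, 3, 0, 0],
    [3, 2, 3, 0, 2]] : List (List ℕ)).map
    (fun l => l.map dec)

theorem F5_closed : ∀ u ∈ F5, (u.flatMap g).take 5 ∈ F5 ∧
    ((u[0]?).map Prod.snd = some false → ((u.flatMap g).drop 1).take 5 ∈ F5) := by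
  decide

theorem F5_det : ∀ u ∈ F5, ∀ v ∈ F5, u.map Prod.fst = v.map Prod.fst → u[4]? = v[4]? := by
  decide

theorem G_add_le (m T : ℕ) : G m + T ≤ G (m + T) := by
  induction T with
  | zero => simp
  | succ T ih =>
    have := G_lt_succ (m + T)
    rw [← add_assoc, ← add_assoc]
    omega

theorem yv_shift (m : ℕ) : yv (G m) 5 = ((yv m 5).flatMap g).take 5 := by
  rw [← img, yv_take]
  have := G_add_le m 5
  omega

theorem yv_shift' {m : ℕ} (h : e m = false) :
    yv (G m + 1) 5 = (((yv m 5).flatMap g).drop 1).take 5 := by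
  have h1 := G_add_le (m + 1) 4
  rw [G_succ_f h, show m + 1 + 4 = m + 5 from rfl] at h1
  obtain ⟨R, hR⟩ : ∃ R, G (m + 5) - G m = 1 + R := ⟨G (m + 5) - G m - 1, by omega⟩
  rw [← img, hR, yv_drop_one, yv_take]
  omega

theorem s_three : s 3 = true ∧ e 3 = false := by
  have := s_add (k := 4) (r := 0) (by omega) (by decide)
  have h2 := e_add (k := 4) (r := 0) (by omega) (by decide)
  rw [s_zero] at this
  rw [e_zero] at h2
  exact ⟨this, h2⟩

theorem s_four : s 4 = false ∧ e 4 = true := by
  have := s_add (k := 4) (r := 1) (by omega) (by decide)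
  have h2 := e_add (k := 4) (r := 1) (by omega) (by decide)
  rw [s_one] at this
  rw [e_one] at h2
  exact ⟨this, h2⟩

theorem yv_mem (n : ℕ) : yv n 5 ∈ F5 := by
  induction n using Nat.strong_induction_on with
  | _ n ih =>
    by_cases h0 : n = 0
    · subst h0
      have : yv 0 5 = [(false, false), (true, true), (true, false), (true, false), (false, true)] := by
        simp [yv, List.range_succ, y, s_zero, e_zero, s_one, e_one, s_two, e_two, s_three, s_four]
      rw [this]
      decide
    · obtain ⟨m, h | ⟨h, h'⟩⟩ := cover n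
      · have hm : m ≠ 0 := by
          rintro rfl
          rw [G_zero] at h; exact h0 h
        have : m < G m := by
          have := G_add_le 1 (m - 1)
          rw [G_one, show 1 + (m - 1) = m by omega] at this
          omega
        rw [h, yv_shift]
        exact (F5_closed _ (ih m (by omega))).1
      · have := le_G m
        rw [h, yv_shift' h']
        refine (F5_closed _ (ih m (by omega))).2 ?_
        rw [yv_getElem? _ _ (by omega)]
        simp [y, h']

/-- five consecutive parities determine the last digit -/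
theorem recog {n n' : ℕ} (h : ∀ t < 5, s (n + t) = s (n' + t)) : e (n + 4) = e (n' + 4) := by
  have := F5_det _ (yv_mem n) _ (yv_mem n') (by
    unfold yv
    rw [List.map_map, List.map_map]
    apply List.map_congr_left
    intro t ht
    exact h t (List.mem_range.1 ht))
  rw [yv_getElem? _ _ (by omega), yv_getElem? _ _ (by omega)] at this
  simpa [y] using congrArg (Option.map Prod.snd) this

/-- complement of the parity -/
def comp (x : Bool × Bool) : Bool × Bool := (!x.1, x.2)

theorem yv_fib {k r : ℕ} (hk : 3 ≤ k) (hr : r ≤ fib (k - 1)) :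
    yv (fib k) r = (yv 0 r).map comp := by
  unfold yv
  rw [List.map_map]
  apply List.map_congr_left
  intro t ht
  have ht' := List.mem_range.1 ht
  simp [y, comp, s_add hk (show t < fib (k - 1) by omega), e_add hk (show t < fib (k - 1) by omega)]

/-- prefixes of `y` -/
def tab : ℕ → List (Bool × Bool)
  | 0 => [(false, false)]
  | 1 => [(false, false), (true, true)]
  | n + 2 => tab (n + 1) ++ (tab n).map comp

theorem tab_eq (n : ℕ) : tab n = yv 0 (fib (n + 2)) ∧ tab (n + 1) = yv 0 (fib (n + 3)) := by
  induction n with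
  | zero =>
    constructor
    · show _ = yv 0 1
      simp [tab, yv, y, s_zero, e_zero]
    · show _ = yv 0 2
      simp [tab, yv, List.range_succ, y, s_zero, e_zero, s_one, e_one]
  | succ n ih =>
    refine ⟨ih.2, ?_⟩
    show tab (n + 1) ++ (tab n).map comp = _
    rw [ih.1, ih.2, show n + 1 + 3 = (n + 2) + 2 from rfl, Nat.fib_add_two (n := n + 2),
      add_comm (fib (n + 2)), yv_append, zero_add, yv_fib (by omega) (by simp)]

theorem yv_drop {i N : ℕ} (h : i ≤ N) : (yv 0 N).drop i = yv i (N - i) := by
  obtain ⟨R, rfl⟩ : ∃ R, N = i + R := ⟨N - i, by omega⟩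
  rw [yv_append]
  have := yv_length 0 i
  rw [List.drop_append_of_le_length (by omega), List.drop_of_length_le (by omega)]
  simp

theorem base_check : ∀ j < 38, ∀ i < j, ((tab 8).drop i).take 9 = ((tab 8).drop j).take 9 →
    ((tab 8).drop i).take (47 - j) = ((tab 8).drop j).take (47 - j) := by
  decide

theorem base {i j k : ℕ} (h : P i j k) (hjk : j + k < 47) : k ≤ 8 := by
  by_contra hk
  push Not at hk
  have hij := h.1
  have ht : tab 8 = yv 0 55 := (tab_eq 8).1
  have := base_check j (by omega) i hij
  rw [ht, yv_drop (by omega), yv_drop (by omega), yv_take _ (by omega), yv_take _ (by omega),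
    yv_take _ (by omega), yv_take _ (by omega)] at this
  have h2 := this (by
    unfold yv
    apply List.map_congr_left
    intro t ht
    have ht' := List.mem_range.1 ht
    have := h.2.1 t (by omega)
    simp [y, this.1, this.2])
  have h3 := congrArg (fun l => l[k]?) h2
  rw [yv_getElem? _ _ (by omega), yv_getElem? _ _ (by omega)] at h3
  apply h.2.2
  simpa [y] using h3

/-- the scales -/
def NN (t : ℕ) : ℕ := G^[t] 47

theorem NN_succ (t : ℕ) : NN (t + 1) = G (NN t) := by
  unfold NN; rw [Function.iterate_succ_apply']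

theorem NN_lower (t : ℕ) : goldenRatio ^ t * (47 + goldenConj) ≤ (NN t : ℝ) + goldenConj := by
  induction t with
  | zero => simp [NN]
  | succ t ih =>
    rw [NN_succ]
    have h1 := (G_bounds (NN t)).2
    have hsq := goldenConj_sq
    have hm := goldenRatio_mul_goldenConj
    have hpos := goldenRatio_pos
    have : goldenRatio * (goldenRatio ^ t * (47 + goldenConj)) ≤
        goldenRatio * ((NN t : ℝ) + goldenConj) := mul_le_mul_of_nonneg_left ih hpos.le
    rw [_root_.pow_succ']
    nlinarith

theorem P_upper (t : ℕ) : ∀ i j k, P i j k → j + k < NN t →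
    (k : ℝ) + 2 * goldenRatio ≤ goldenRatio ^ t * (8 + 2 * goldenRatio) := by
  induction t with
  | zero =>
    intro i j k h hjk
    have hk := base h (by simpa [NN] using hjk)
    have : (k : ℝ) ≤ 8 := by exact_mod_cast hk
    rw [pow_zero]; linarith
  | succ t ih =>
    intro i j k h hjk
    have hpos := goldenRatio_pos
    have hsq := goldenRatio_sq
    by_cases hk : k = 0
    · subst hk
      have h1 : 1 ≤ goldenRatio ^ (t + 1) := one_le_pow₀ one_lt_goldenRatio.le
      push_cast
      nlinarith
    · rw [NN_succ] at hjk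
      obtain ⟨i', j', k', hP, hN, hG⟩ := h.desub (by omega) hjk
      have h1 := ih i' j' k' hP hN
      have h2 := G_diff i' k'
      have h3 : (k : ℝ) + G i' ≤ G (i' + k') + 1 := by exact_mod_cast hG
      have h4 : goldenRatio * ((k' : ℝ) + 2 * goldenRatio) ≤
          goldenRatio * (goldenRatio ^ t * (8 + 2 * goldenRatio)) :=
        mul_le_mul_of_nonneg_left h1 hpos.le
      rw [_root_.pow_succ']
      nlinarith

/-- repeated parity blocks with different successors -/
theorem S_upper (t i j k : ℕ) (hij : i < j) (heq : ∀ x < k, s (i + x) = s (j + x))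
    (hne : s (i + k) ≠ s (j + k)) (hjk : j + k < NN t) :
    (k : ℝ) + 2 * goldenRatio ≤ goldenRatio ^ t * (8 + 2 * goldenRatio) + 4 := by
  by_cases hk : k < 4
  · have h1 : 1 ≤ goldenRatio ^ t := one_le_pow₀ one_lt_goldenRatio.le
    have hpos := goldenRatio_pos
    have : (k : ℝ) ≤ 4 := by exact_mod_cast hk.le
    nlinarith
  · obtain ⟨q, rfl⟩ : ∃ q, k = q + 4 := ⟨k - 4, by omega⟩
    have hP : P (i + 4) (j + 4) q := by
      refine ⟨by omega, ?_, ?_⟩
      · intro x hx
        constructor
        · have := heq (x + 4) (by omega)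
          rwa [show i + (x + 4) = i + 4 + x by omega, show j + (x + 4) = j + 4 + x by omega] at this
        · have := recog (n := i + x) (n' := j + x) (fun z hz => by
            have := heq (x + z) (by omega)
            rwa [← add_assoc, ← add_assoc] at this)
          rwa [show i + x + 4 = i + 4 + x by omega, show j + x + 4 = j + 4 + x by omega] at this
      · intro hcon
        apply hne
        rw [show i + (q + 4) = i + 4 + q by omega, show j + (q + 4) = j + 4 + q by omega]
        exact hcon.1
    have := P_upper t _ _ _ hP (by omega)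
    push_cast
    linarith

end Q159.ZeckParity
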